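import Mathlib

/-!
# Divergence along primes in a residue class
-/

namespace Pool.Agent.Helper23.Hurwitz

open ArithmeticFunction ArithmeticFunction.vonMangoldt

theorem bound_aux {s : ℝ} (hs : s < 1 / 6) :
    ∃ C : ℝ, 0 < C ∧ ∀ l : ℕ, 2 ≤ l →
      Real.log l / l ≤ C * (((2 * l ^ 6 + 1 : ℕ) : ℝ)) ^ (-s) := by
  by_cases hs0 : s ≤ 0
  · refine ⟨1, one_pos, fun l hl => ?_⟩
    have hl0 : (0 : ℝ) < l := by exact_mod_cast (by omega : 0 < l)
    have h1 : Real.log l / l ≤ 1 := by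
      rw [div_le_one hl0]
      exact (Real.log_le_sub_one_of_pos hl0).trans (by linarith)
    have h2 : (1 : ℝ) ≤ (((2 * l ^ 6 + 1 : ℕ) : ℝ)) ^ (-s) := by
      apply Real.one_le_rpow
      · exact_mod_cast (by omega : 1 ≤ 2 * l ^ 6 + 1)
      · linarith
    linarith
  · push Not at hs0
    have he : 0 < 1 - 6 * s := by linarith
    refine ⟨3 ^ s / (1 - 6 * s), div_pos (Real.rpow_pos_of_pos (by norm_num) _) he, fun l hl => ?_⟩
    have hl0 : (0 : ℝ) < l := by exact_mod_cast (by omega : 0 < l)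
    have hb : (((2 * l ^ 6 + 1 : ℕ) : ℝ)) ≤ 3 * (l : ℝ) ^ 6 := by
      have : 2 * l ^ 6 + 1 ≤ 3 * l ^ 6 := by
        have : 1 ≤ l ^ 6 := Nat.one_le_pow _ _ (by omega)
        omega
      exact_mod_cast this
    have hpos : (0 : ℝ) < (((2 * l ^ 6 + 1 : ℕ) : ℝ)) := by positivity
    have h1 : (((2 * l ^ 6 + 1 : ℕ) : ℝ)) ^ s ≤ 3 ^ s * (l : ℝ) ^ (6 * s) := by
      calc (((2 * l ^ 6 + 1 : ℕ) : ℝ)) ^ s ≤ (3 * (l : ℝ) ^ 6) ^ s :=
            Real.rpow_le_rpow hpos.le hb hs0.le
        _ = 3 ^ s * (l : ℝ) ^ (6 * s) := by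
            rw [Real.mul_rpow (by norm_num) (by positivity), Real.rpow_mul hl0.le]
            norm_num
    have h2 : Real.log l ≤ (l : ℝ) ^ (1 - 6 * s) / (1 - 6 * s) :=
      Real.log_le_rpow_div hl0.le he
    rw [Real.rpow_neg hpos.le, div_le_iff₀ hl0]
    have hA : 0 < (((2 * l ^ 6 + 1 : ℕ) : ℝ)) ^ s := Real.rpow_pos_of_pos hpos _
    have h3 : Real.log l * (((2 * l ^ 6 + 1 : ℕ) : ℝ)) ^ s ≤ 3 ^ s / (1 - 6 * s) * l := by
      have hlog : 0 ≤ Real.log l := Real.log_natCast_nonneg l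
      calc Real.log l * (((2 * l ^ 6 + 1 : ℕ) : ℝ)) ^ s
          ≤ ((l : ℝ) ^ (1 - 6 * s) / (1 - 6 * s)) * (3 ^ s * (l : ℝ) ^ (6 * s)) := by
            apply mul_le_mul h2 h1 hA.le
            positivity
        _ = 3 ^ s / (1 - 6 * s) * ((l : ℝ) ^ (1 - 6 * s) * (l : ℝ) ^ (6 * s)) := by ring
        _ = 3 ^ s / (1 - 6 * s) * l := by
            rw [← Real.rpow_add hl0]
            simp
    calc Real.log l = Real.log l * (((2 * l ^ 6 + 1 : ℕ) : ℝ)) ^ s *
          ((((2 * l ^ 6 + 1 : ℕ) : ℝ)) ^ s)⁻¹ := by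
            field_simp
      _ ≤ 3 ^ s / (1 - 6 * s) * l * ((((2 * l ^ 6 + 1 : ℕ) : ℝ)) ^ s)⁻¹ := by
            apply mul_le_mul_of_nonneg_right h3 (by positivity)
      _ = _ := by ring

theorem not_summable_of_primes (U : Set ℕ)
    (hU : ∀ l : ℕ, l.Prime → 168 < l → l % 7 = 3 → 2 * l ^ 6 + 1 ∈ U) {s : ℝ} (hs : s < 1 / 6) :
    ¬ Summable (fun g : U => ((g : ℕ) : ℝ) ^ (-s)) := by
  intro hsum
  let P : Set ℕ := {l | l.Prime ∧ 168 < l ∧ l % 7 = 3}
  let ι : P → U := fun l => ⟨2 * l.1 ^ 6 + 1, hU l.1 l.2.1 l.2.2.1 l.2.2.2⟩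
  have hι : Function.Injective ι := by
    intro a b hab
    have h1 : 2 * a.1 ^ 6 + 1 = 2 * b.1 ^ 6 + 1 := congrArg Subtype.val hab
    have h2 : a.1 ^ 6 = b.1 ^ 6 := by omega
    exact Subtype.ext (Nat.pow_left_injective (by norm_num) h2)
  have h1' := hsum.comp_injective hι
  have h1 : Summable (fun l : P => (((2 * l.1 ^ 6 + 1 : ℕ) : ℝ)) ^ (-s)) := by
    apply h1'.congr
    intro l
    simp only [Function.comp_apply, ι]
  obtain ⟨C, hC, hb⟩ := bound_aux hs
  have h2 : Summable (fun l : P => Real.log l.1 / (l.1 : ℝ)) := by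
    refine Summable.of_nonneg_of_le (fun l => ?_) (fun l => hb l.1 (by have := l.2.2.1; omega))
      (h1.mul_left C)
    exact div_nonneg (Real.log_natCast_nonneg _) (Nat.cast_nonneg _)
  have ha : IsUnit (3 : ZMod 7) := by
    rw [isUnit_iff_exists]
    exact ⟨5, by decide, by decide⟩
  apply not_summable_residueClass_prime_div ha
  set f : ℕ → ℝ := fun n => (if n.Prime then residueClass (3 : ZMod 7) n else 0) / n with hf
  have hfP : ∀ l : P, f l.1 = Real.log l.1 / (l.1 : ℝ) := by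
    intro l
    have hp := l.2.1
    have hmod : ((l.1 : ℕ) : ZMod 7) = 3 := by
      have : ((l.1 : ℕ) : ZMod 7) = ((3 : ℕ) : ZMod 7) := by
        rw [ZMod.natCast_eq_natCast_iff]
        exact l.2.2.2
      rw [this]; rfl
    show (if (l.1).Prime then residueClass (3 : ZMod 7) l.1 else 0) / (l.1 : ℝ) = _
    rw [if_pos hp]
    congr 1
    have : residueClass (3 : ZMod 7) l.1 = vonMangoldt l.1 := by
      unfold residueClass
      exact Set.indicator_of_mem (s := {n : ℕ | (n : ZMod 7) = 3}) hmod _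
    rw [this, vonMangoldt_apply_prime hp]
  have h3 : Summable (P.indicator f) := by
    rw [← summable_subtype_iff_indicator]
    have : (f ∘ (Subtype.val : P → ℕ)) = (fun l : P => Real.log l.1 / (l.1 : ℝ)) := by
      funext l
      exact hfP l
    rw [this]
    exact h2
  have h4 : Summable (fun n => f n - P.indicator f n) := by
    apply summable_of_hasFiniteSupport
    apply Set.Finite.subset (Set.finite_Iic 168)
    intro n hn
    rw [Function.mem_support] at hn
    by_contra hlt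
    have hlt' : 168 < n := by simpa using hlt
    apply hn
    by_cases hp : n.Prime ∧ n % 7 = 3
    · have hnP : n ∈ P := ⟨hp.1, hlt', hp.2⟩
      rw [Set.indicator_of_mem hnP, sub_self]
    · have hnP : n ∉ P := fun h => hp ⟨h.1, h.2.2⟩
      rw [Set.indicator_of_notMem hnP, sub_zero]
      show (if n.Prime then residueClass (3 : ZMod 7) n else 0) / (n : ℝ) = 0
      by_cases hpr : n.Prime
      · rw [if_pos hpr]
        have hmod : ((n : ℕ) : ZMod 7) ≠ 3 := by
          intro h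
          apply hp
          refine ⟨hpr, ?_⟩
          have h' : ((n : ℕ) : ZMod 7) = ((3 : ℕ) : ZMod 7) := by rw [h]; rfl
          rw [ZMod.natCast_eq_natCast_iff] at h'
          exact h'
        have : residueClass (3 : ZMod 7) n = 0 := by
          unfold residueClass
          exact Set.indicator_of_notMem (s := {n : ℕ | (n : ZMod 7) = 3}) hmod _
        rw [this, zero_div]
      · rw [if_neg hpr, zero_div]
  have h5 := h4.add h3
  simpa using h5

end Pool.Agent.Helper23.Hurwitz
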