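import Mathlib

/-!
# The (2,3,7) triangle group: elementary facts
-/

namespace Pool.Agent.Helper23.Hurwitz

/-- The relators of the `(2,3,7)` triangle group. -/
def rels : Set (FreeGroup Bool) :=
  {FreeGroup.of false ^ 2, FreeGroup.of true ^ 3, (FreeGroup.of false * FreeGroup.of true) ^ 7}

/-- The `(2,3,7)` triangle group `⟨x, y | x² = y³ = (xy)⁷ = 1⟩`. -/
abbrev Delta : Type := PresentedGroup rels

/-- The generator `x` of order `2`. -/
def gx : Delta := PresentedGroup.of false

/-- The generator `y` of order `3`. -/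
def gy : Delta := PresentedGroup.of true

theorem gx_sq : gx ^ 2 = 1 := by
  have : (PresentedGroup.mk rels) (FreeGroup.of false ^ 2) = 1 :=
    PresentedGroup.one_of_mem (by simp [rels])
  simpa [gx, PresentedGroup.of] using this

theorem gy_cube : gy ^ 3 = 1 := by
  have : (PresentedGroup.mk rels) (FreeGroup.of true ^ 3) = 1 :=
    PresentedGroup.one_of_mem (by simp [rels])
  simpa [gy, PresentedGroup.of] using this

theorem gz_pow : (gx * gy) ^ 7 = 1 := by
  have : (PresentedGroup.mk rels) ((FreeGroup.of false * FreeGroup.of true) ^ 7) = 1 :=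
    PresentedGroup.one_of_mem (by simp [rels])
  simpa [gx, gy, PresentedGroup.of] using this

theorem closure_gens : Subgroup.closure {gx, gy} = (⊤ : Subgroup Delta) := by
  rw [← PresentedGroup.closure_range_of rels]
  congr 1
  ext g
  simp [gx, gy]

/-- The universal property. -/
theorem exists_lift {G : Type*} [Group G] (a b : G) (ha : a ^ 2 = 1) (hb : b ^ 3 = 1)
    (hab : (a * b) ^ 7 = 1) : ∃ f : Delta →* G, f gx = a ∧ f gy = b := by
  let v : Bool → G := fun t => if t then b else a
  have hv : ∀ r ∈ rels, FreeGroup.lift v r = 1 := by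
    intro r hr
    simp only [rels, Set.mem_insert_iff, Set.mem_singleton_iff] at hr
    rcases hr with rfl | rfl | rfl
    · simpa [v] using ha
    · simpa [v] using hb
    · simpa [v] using hab
  refine ⟨PresentedGroup.toGroup hv, ?_, ?_⟩
  · simp [gx, v]
  · simp [gy, v]

/-- Two homomorphisms agreeing on the generators are equal. -/
theorem hom_ext {G : Type*} [Group G] {f g : Delta →* G} (hx : f gx = g gx) (hy : f gy = g gy) :
    f = g := by
  apply MonoidHom.eq_of_eqOn_dense closure_gens
  intro t ht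
  rcases ht with rfl | ht
  · exact hx
  · rw [Set.mem_singleton_iff.mp ht]; exact hy

theorem gens_trivial {G : Type*} [Group G] {a b : G} (ha : a ^ 2 = 1) (hb : b ^ 3 = 1)
    (hab : a * b = 1) : a = 1 ∧ b = 1 := by
  have hb' : b = a := by
    have h1 : a * a = 1 := by rw [← sq]; exact ha
    have := hab.trans h1.symm
    exact mul_left_cancel this
  subst hb'
  have : b = 1 := by
    calc b = b ^ 3 * (b ^ 2)⁻¹ := by group
      _ = 1 := by rw [ha, hb]; simp
  exact ⟨this, this⟩

/-- The group `Δ` is perfect: homomorphisms to groups in which any two elements commute are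
trivial. -/
theorem hom_comm_trivial {A : Type*} [Group A] (hA : ∀ a b : A, a * b = b * a)
    (f : Delta →* A) : f = 1 := by
  have hx : f gx ^ 2 = 1 := by rw [← map_pow, gx_sq, map_one]
  have hy : f gy ^ 3 = 1 := by rw [← map_pow, gy_cube, map_one]
  have hz : (f gx * f gy) ^ 7 = 1 := by rw [← map_mul, ← map_pow, gz_pow, map_one]
  have hc : Commute (f gx) (f gy) := hA _ _
  have hab : f gx * f gy = 1 := by
    rw [hc.mul_pow] at hz
    have e1 : f gx ^ 7 = (f gx ^ 2) ^ 3 * f gx := by rw [← pow_mul, ← pow_succ]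
    have e2 : f gy ^ 7 = (f gy ^ 3) ^ 2 * f gy := by rw [← pow_mul, ← pow_succ]
    rw [e1, e2, hx, hy] at hz
    simpa using hz
  obtain ⟨h1, h2⟩ := gens_trivial hx hy hab
  exact hom_ext (by simpa using h1) (by simpa using h2)

/-- A normal subgroup containing `xy` is everything. -/
theorem eq_top_of_gz_mem (N : Subgroup Delta) [N.Normal] (h : gx * gy ∈ N) : N = ⊤ := by
  have hx : (QuotientGroup.mk' N gx) ^ 2 = 1 := by rw [← map_pow, gx_sq, map_one]
  have hy : (QuotientGroup.mk' N gy) ^ 3 = 1 := by rw [← map_pow, gy_cube, map_one]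
  have hz : QuotientGroup.mk' N gx * QuotientGroup.mk' N gy = 1 := by
    rw [← map_mul]
    exact (QuotientGroup.eq_one_iff _).2 h
  obtain ⟨h1, h2⟩ := gens_trivial hx hy hz
  have h1' : gx ∈ N := (QuotientGroup.eq_one_iff _).1 h1
  have h2' : gy ∈ N := (QuotientGroup.eq_one_iff _).1 h2
  rw [eq_top_iff, ← closure_gens, Subgroup.closure_le]
  intro t ht
  rcases ht with rfl | ht
  · exact h1'
  · rw [Set.mem_singleton_iff.mp ht]; exact h2'

theorem eq_top_of_gx_mem (N : Subgroup Delta) [N.Normal] (h : gx ∈ N) : N = ⊤ := by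
  have hx : QuotientGroup.mk' N gx = 1 := (QuotientGroup.eq_one_iff _).2 h
  have hy : (QuotientGroup.mk' N gy) ^ 3 = 1 := by rw [← map_pow, gy_cube, map_one]
  have hz : (QuotientGroup.mk' N gx * QuotientGroup.mk' N gy) ^ 7 = 1 := by
    rw [← map_mul, ← map_pow, gz_pow, map_one]
  apply eq_top_of_gz_mem
  apply (QuotientGroup.eq_one_iff _).1
  show QuotientGroup.mk' N (gx * gy) = 1
  rw [map_mul]
  rw [hx, one_mul] at hz ⊢
  have e : QuotientGroup.mk' N gy = (QuotientGroup.mk' N gy) ^ 7 * ((QuotientGroup.mk' N gy ^ 3) ^ 2)⁻¹ := by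
    group
  rw [e, hz, hy]; simp

theorem eq_top_of_gy_mem (N : Subgroup Delta) [N.Normal] (h : gy ∈ N) : N = ⊤ := by
  have hx : (QuotientGroup.mk' N gx) ^ 2 = 1 := by rw [← map_pow, gx_sq, map_one]
  have hy : QuotientGroup.mk' N gy = 1 := (QuotientGroup.eq_one_iff _).2 h
  have hz : (QuotientGroup.mk' N gx * QuotientGroup.mk' N gy) ^ 7 = 1 := by
    rw [← map_mul, ← map_pow, gz_pow, map_one]
  apply eq_top_of_gz_mem
  apply (QuotientGroup.eq_one_iff _).1
  show QuotientGroup.mk' N (gx * gy) = 1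
  rw [map_mul]
  rw [hy, mul_one] at hz ⊢
  have e : QuotientGroup.mk' N gx = (QuotientGroup.mk' N gx) ^ 7 * ((QuotientGroup.mk' N gx ^ 2) ^ 3)⁻¹ := by
    group
  rw [e, hz, hx]; simp

theorem orderOf_mk_gx (N : Subgroup Delta) [N.Normal] (h : N ≠ ⊤) :
    orderOf (QuotientGroup.mk' N gx) = 2 := by
  apply orderOf_eq_prime
  · rw [← map_pow, gx_sq, map_one]
  · intro h1
    exact h (eq_top_of_gx_mem N ((QuotientGroup.eq_one_iff _).1 h1))

theorem orderOf_mk_gy (N : Subgroup Delta) [N.Normal] (h : N ≠ ⊤) :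
    orderOf (QuotientGroup.mk' N gy) = 3 := by
  apply orderOf_eq_prime
  · rw [← map_pow, gy_cube, map_one]
  · intro h1
    exact h (eq_top_of_gy_mem N ((QuotientGroup.eq_one_iff _).1 h1))

theorem orderOf_mk_gz (N : Subgroup Delta) [N.Normal] (h : N ≠ ⊤) :
    orderOf (QuotientGroup.mk' N (gx * gy)) = 7 := by
  have : Fact (Nat.Prime 7) := ⟨by norm_num⟩
  apply orderOf_eq_prime
  · rw [← map_pow, gz_pow, map_one]
  · intro h1
    exact h (eq_top_of_gz_mem N ((QuotientGroup.eq_one_iff _).1 h1))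

end Pool.Agent.Helper23.Hurwitz
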