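import Pool.Agent.Helper23.Hurwitz.Unique168

/-!
# No small nontrivial quotients of the normal subgroup of index 168
-/

namespace Pool.Agent.Helper23.Hurwitz

theorem pow_mod_seven {l d j : ℕ} (hl : l % 7 = 3 ∨ l % 7 = 5) (hd : d ≤ 5) (hj : j ≤ d)
    (h : l ^ d ≡ l ^ j [MOD 7]) : j = d := by
  have key : ∀ c : ℕ, c = 3 ∨ c = 5 → l ≡ c [MOD 7] → j = d := by
    intro c hc hlc
    have h' : c ^ d ≡ c ^ j [MOD 7] := ((hlc.pow d).symm.trans h).trans (hlc.pow j)
    clear h hl hlc
    unfold Nat.ModEq at h'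
    rcases hc with rfl | rfl
    · interval_cases d <;> interval_cases j <;> simp_all
    · interval_cases d <;> interval_cases j <;> simp_all
  rcases hl with hl | hl
  · exact key 3 (Or.inl rfl) hl
  · exact key 5 (Or.inr rfl) hl

theorem no_small (N : Subgroup Delta) [N.Normal] (hN : N.index = 168)
    (M : Subgroup Delta) [M.Normal] (hMN : M ≤ N) (l : ℕ) (hlp : l.Prime) (hl168 : 168 < l)
    (hl : l % 7 = 3 ∨ l % 7 = 5) (hpow : ∀ n ∈ N, n ^ l ∈ M)
    (d : ℕ) (hidx : M.relIndex N = l ^ d) (hd : 1 ≤ d) (hd5 : d ≤ 5) : False := by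
  have hMi : M.index = l ^ d * 168 := by
    rw [← Subgroup.relIndex_mul_index hMN, hidx, hN]
  have hMi0 : M.index ≠ 0 := by
    rw [hMi]
    exact Nat.mul_ne_zero (pow_ne_zero _ hlp.ne_zero) (by norm_num)
  have hfin : Finite (Delta ⧸ M) := Nat.finite_of_card_ne_zero hMi0
  have hMtop : M ≠ ⊤ := by
    intro h
    rw [h] at hMN
    have : N = ⊤ := top_le_iff.1 hMN
    exact ne_top_of_index N hN this
  set π := QuotientGroup.mk' M with hπ
  have hπs : Function.Surjective π := QuotientGroup.mk'_surjective M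
  set V : Subgroup (Delta ⧸ M) := N.map π with hV
  have hVn : V.Normal := Subgroup.Normal.map inferInstance π hπs
  have hVcard : Nat.card V = l ^ d := by
    have h1 : (π.comp N.subtype).ker = M.subgroupOf N := by
      ext n
      rw [MonoidHom.mem_ker, Subgroup.mem_subgroupOf]
      exact QuotientGroup.eq_one_iff _
    have h2 : (π.comp N.subtype).range = V := by
      rw [MonoidHom.range_comp, N.range_subtype]
    have h3 := Subgroup.index_ker (π.comp N.subtype)
    rw [h1, h2] at h3
    rw [← h3, ← hidx]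
    rfl
  have hVfin : Finite V := inferInstance
  set zb := π (gx * gy) with hzb
  have hzo : orderOf zb = 7 := orderOf_mk_gz M hMtop
  -- the action of `⟨z⟩` on `V`
  let act : MulAction (Subgroup.zpowers zb) V :=
    MulAction.compHom V ((MulAut.conjNormal (H := V)).comp (Subgroup.zpowers zb).subtype)
  have hact : ∀ (g : Subgroup.zpowers zb) (v : V), ((g • v : V) : Delta ⧸ M) =
      (g : Delta ⧸ M) * v * (g : Delta ⧸ M)⁻¹ := by
    intro g v
    exact MulAut.conjNormal_apply (g : Delta ⧸ M) v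
  have hpg : IsPGroup 7 (Subgroup.zpowers zb) := isPGroup_zpowers_gz M hMtop
  have hmod := hpg.card_modEq_card_fixedPoints V
  -- fixed points as a subgroup
  let Fx : Subgroup V :=
    { carrier := {v | zb * v * zb⁻¹ = v}
      one_mem' := by simp
      mul_mem' := by
        intro a b ha hb
        show zb * ((a * b : V) : Delta ⧸ M) * zb⁻¹ = ((a * b : V) : Delta ⧸ M)
        have e : zb * ((a * b : V) : Delta ⧸ M) * zb⁻¹ =
            (zb * (a : Delta ⧸ M) * zb⁻¹) * (zb * (b : Delta ⧸ M) * zb⁻¹) := by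
          rw [Subgroup.coe_mul]; group
        rw [e, Subgroup.coe_mul]
        have ha' : zb * (a : Delta ⧸ M) * zb⁻¹ = a := ha
        have hb' : zb * (b : Delta ⧸ M) * zb⁻¹ = b := hb
        rw [ha', hb']
      inv_mem' := by
        intro a ha
        show zb * ((a⁻¹ : V) : Delta ⧸ M) * zb⁻¹ = ((a⁻¹ : V) : Delta ⧸ M)
        have ha' : zb * (a : Delta ⧸ M) * zb⁻¹ = a := ha
        have e : zb * ((a⁻¹ : V) : Delta ⧸ M) * zb⁻¹ = (zb * (a : Delta ⧸ M) * zb⁻¹)⁻¹ := by
          rw [Subgroup.coe_inv]; group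
        rw [e, ha', Subgroup.coe_inv] }
  have hFx : (MulAction.fixedPoints (Subgroup.zpowers zb) V) = (Fx : Set V) := by
    ext v
    rw [MulAction.mem_fixedPoints]
    constructor
    · intro h
      have := congrArg Subtype.val (h ⟨zb, Subgroup.mem_zpowers zb⟩)
      rw [hact] at this
      exact this
    · intro h g
      have hv : zb * (v : Delta ⧸ M) * zb⁻¹ = v := h
      apply Subtype.ext
      rw [hact]
      have hc : Commute zb (v : Delta ⧸ M) := by
        show zb * (v : Delta ⧸ M) = v * zb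
        rw [mul_inv_eq_iff_eq_mul] at hv
        exact hv
      obtain ⟨i, hi⟩ := Subgroup.mem_zpowers_iff.1 g.2
      have hc' : Commute (g : Delta ⧸ M) (v : Delta ⧸ M) := by
        rw [← hi]; exact hc.zpow_left i
      rw [hc'.eq]; group
  have hcardFx : Nat.card (MulAction.fixedPoints (Subgroup.zpowers zb) V) = Nat.card Fx := by
    rw [hFx]; rfl
  rw [hcardFx, hVcard] at hmod
  have hdvd : Nat.card Fx ∣ l ^ d := by
    rw [← hVcard]; exact Subgroup.card_subgroup_dvd_card Fx
  obtain ⟨j, hj, hj'⟩ := (Nat.dvd_prime_pow hlp).1 hdvd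
  rw [hj'] at hmod
  have hjd := pow_mod_seven hl hd5 hj hmod
  have hFtop : Fx = ⊤ := by
    apply Subgroup.eq_top_of_card_eq
    rw [hj', hjd, hVcard]
  -- the centralizer of `V`
  have hcent : (Subgroup.centralizer (V : Set (Delta ⧸ M))).comap π = ⊤ := by
    apply eq_top_of_gz_mem
    rw [Subgroup.mem_comap, Subgroup.mem_centralizer_iff]
    intro v hv
    have h1 : (⟨v, hv⟩ : V) ∈ Fx := by rw [hFtop]; trivial
    have h2 : zb * v * zb⁻¹ = v := h1
    rw [mul_inv_eq_iff_eq_mul] at h2
    exact h2.symm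
  have hVc : V ≤ Subgroup.center (Delta ⧸ M) := by
    intro v hv
    rw [Subgroup.mem_center_iff]
    intro g
    obtain ⟨h, rfl⟩ := hπs g
    have h1 : h ∈ (Subgroup.centralizer (V : Set (Delta ⧸ M))).comap π := by rw [hcent]; trivial
    rw [Subgroup.mem_comap, Subgroup.mem_centralizer_iff] at h1
    exact (h1 v hv).symm
  -- transfer
  have hVi : V.index = 168 := by
    rw [hV, Subgroup.index_map_eq _ hπs (by rw [QuotientGroup.ker_mk']; exact hMN), hN]
  have hcd : (Subgroup.center (Delta ⧸ M)).index ∣ 168 := by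
    rw [← hVi]; exact Subgroup.index_dvd_of_le hVc
  have hcc : ∀ a b : Subgroup.center (Delta ⧸ M), a * b = b * a := by
    intro a b
    apply Subtype.ext
    exact (Subgroup.mem_center_iff.1 b.2 a)
  have htr := hom_comm_trivial hcc ((MonoidHom.transferCenterPow (Delta ⧸ M)).comp π)
  have hpow168 : ∀ v : Delta ⧸ M, v ^ 168 = 1 := by
    intro v
    obtain ⟨g, rfl⟩ := hπs v
    have h1 := DFunLike.congr_fun htr g
    have h2 := congrArg Subtype.val h1
    have h3 : (π g) ^ (Subgroup.center (Delta ⧸ M)).index = 1 := h2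
    obtain ⟨c, hc⟩ := hcd
    rw [hc, pow_mul, h3, one_pow]
  have hVtriv : V = ⊥ := by
    rw [eq_bot_iff]
    intro v hv
    obtain ⟨n, hn, rfl⟩ := Subgroup.mem_map.1 hv
    have h1 : (π n) ^ l = 1 := by
      rw [← map_pow]
      exact (QuotientGroup.eq_one_iff _).2 (hpow n hn)
    have h2 := hpow168 (π n)
    have h3 : orderOf (π n) ∣ Nat.gcd l 168 :=
      Nat.dvd_gcd (orderOf_dvd_of_pow_eq_one h1) (orderOf_dvd_of_pow_eq_one h2)
    have hcop : Nat.Coprime l 168 := by
      rw [Nat.Prime.coprime_iff_not_dvd hlp]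
      intro hdv
      have := Nat.le_of_dvd (by norm_num) hdv
      omega
    rw [hcop.gcd_eq_one, Nat.dvd_one, orderOf_eq_one_iff] at h3
    exact h3
  rw [hVtriv] at hVcard
  simp only [Subgroup.card_bot] at hVcard
  have : 1 < l ^ d := Nat.one_lt_pow (by omega) hlp.one_lt
  omega

end Pool.Agent.Helper23.Hurwitz
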