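import Pool.Agent.Helper23.Hurwitz.Shapiro
import Pool.Agent.Helper23.Hurwitz.NoSmall

/-!
# Exactly one normal subgroup of index `168 ℓ⁶`
-/

namespace Pool.Agent.Helper23.Hurwitz

open Module

section evals

variable {G : Type*} [Group G] {l : ℕ} [Fact l.Prime]

theorem eval_surjective {d : ℕ} (b : Fin d → (G → ZMod l))
    (hb : ∀ i, ∀ m n, b i (m * n) = b i m + b i n) (hli : LinearIndependent (ZMod l) b) :
    Function.Surjective (fun (n : G) (i : Fin d) => b i n) := by
  let Ψ : G →* Multiplicative (Fin d → ZMod l) :=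
    MonoidHom.mk' (fun n => Multiplicative.ofAdd (fun i => b i n)) (by
      intro m n
      apply Multiplicative.toAdd.injective
      funext i
      exact hb i m n)
  let P : AddSubgroup (Fin d → ZMod l) := Subgroup.toAddSubgroup Ψ.range
  let Q : Submodule (ZMod l) (Fin d → ZMod l) := AddSubgroup.toZModSubmodule l P
  have hmem : ∀ n : G, (fun i => b i n) ∈ Q := by
    intro n
    show (fun i => b i n) ∈ P
    exact ⟨n, rfl⟩
  have hQ : Q = ⊤ := by
    by_contra hne
    obtain ⟨f, hf0, hf⟩ := Submodule.exists_le_ker_of_lt_top Q (lt_top_iff_ne_top.2 hne)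
    apply hf0
    have hsum : ∀ v : Fin d → ZMod l, f v = ∑ i, v i * f (Pi.single i 1) := by
      intro v
      have := LinearMap.pi_apply_eq_sum_univ f v
      rw [this]
      apply Finset.sum_congr rfl
      intro i _
      rw [smul_eq_mul]
      congr 2
      funext j
      simp [Pi.single_apply, eq_comm]
    have hzero : ∑ i, f (Pi.single i 1) • b i = 0 := by
      funext n
      have h1 := hf (hmem n)
      rw [LinearMap.mem_ker, hsum] at h1
      rw [Finset.sum_apply]
      simp only [Pi.smul_apply, smul_eq_mul, Pi.zero_apply]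
      rw [← h1]
      apply Finset.sum_congr rfl
      intro i _
      ring
    have hc := (Fintype.linearIndependent_iff.1 hli) _ hzero
    apply LinearMap.ext
    intro v
    rw [hsum]
    simp [hc]
  intro v
  have hv : v ∈ Q := by rw [hQ]; trivial
  have hv' : v ∈ P := hv
  obtain ⟨n, hn⟩ := hv'
  exact ⟨n, hn⟩

end evals

section

variable (N : Subgroup Delta) (l : ℕ) [Fact l.Prime]

theorem homs_one {a : N → ZMod l} (ha : a ∈ homs N (ZMod l)) : a 1 = 0 := by
  have := ha 1 1
  rw [mul_one] at this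
  exact left_eq_add.1 this

theorem homs_inv {a : N → ZMod l} (ha : a ∈ homs N (ZMod l)) (n : N) : a n⁻¹ = - a n := by
  have := ha n⁻¹ n
  rw [inv_mul_cancel, homs_one N l ha] at this
  exact eq_neg_of_add_eq_zero_left this.symm

theorem homs_pow {a : N → ZMod l} (ha : a ∈ homs N (ZMod l)) (n : N) (m : ℕ) :
    a (n ^ m) = m * a n := by
  induction m with
  | zero => rw [pow_zero, homs_one N l ha]; simp
  | succ m ih =>
    rw [pow_succ, ha, ih]
    push_cast
    ring

/-- The common kernel of a space of homomorphisms. -/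
def kerOf (S : Submodule (ZMod l) (N → ZMod l)) (hS : S ≤ homs N (ZMod l)) : Subgroup Delta where
  carrier := {g | ∃ h : g ∈ N, ∀ a ∈ S, a ⟨g, h⟩ = 0}
  one_mem' := ⟨N.one_mem, fun a ha => homs_one N l (hS ha)⟩
  mul_mem' := by
    rintro x y ⟨hx, hx'⟩ ⟨hy, hy'⟩
    refine ⟨N.mul_mem hx hy, fun a ha => ?_⟩
    have := (hS ha) ⟨x, hx⟩ ⟨y, hy⟩
    rw [hx' a ha, hy' a ha, add_zero] at this
    exact this
  inv_mem' := by
    rintro x ⟨hx, hx'⟩
    refine ⟨N.inv_mem hx, fun a ha => ?_⟩
    have := homs_inv N l (hS ha) ⟨x, hx⟩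
    rw [hx' a ha, neg_zero] at this
    exact this

theorem kerOf_le (S : Submodule (ZMod l) (N → ZMod l)) (hS : S ≤ homs N (ZMod l)) :
    kerOf N l S hS ≤ N := fun _ hg => hg.1

theorem mem_kerOf (S : Submodule (ZMod l) (N → ZMod l)) (hS : S ≤ homs N (ZMod l)) (g : Delta) :
    g ∈ kerOf N l S hS ↔ ∃ h : g ∈ N, ∀ a ∈ S, a ⟨g, h⟩ = 0 := Iff.rfl

theorem relIndex_kerOf (S : Submodule (ZMod l) (N → ZMod l)) (hS : S ≤ homs N (ZMod l))
    [Module.Finite (ZMod l) S] :
    (kerOf N l S hS).relIndex N = l ^ finrank (ZMod l) S := by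
  set d := finrank (ZMod l) S with hd
  let B := Module.finBasis (ZMod l) S
  let b : Fin d → (N → ZMod l) := fun i => (B i : N → ZMod l)
  have hli : LinearIndependent (ZMod l) b := by
    have := B.linearIndependent
    exact this.map' S.subtype (Submodule.ker_subtype S)
  have hb : ∀ i, ∀ m n, b i (m * n) = b i m + b i n := fun i m n => hS (B i).2 m n
  have hsurj := eval_surjective b hb hli
  let Ψ : N →* Multiplicative (Fin d → ZMod l) :=
    MonoidHom.mk' (fun n => Multiplicative.ofAdd (fun i => b i n)) (by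
      intro m n
      apply Multiplicative.toAdd.injective
      funext i
      exact hb i m n)
  have hker : Ψ.ker = (kerOf N l S hS).subgroupOf N := by
    ext n
    rw [MonoidHom.mem_ker, Subgroup.mem_subgroupOf, mem_kerOf]
    constructor
    · intro h
      refine ⟨n.2, fun a ha => ?_⟩
      have h1 : ∀ i, b i n = 0 := fun i => congrFun (congrArg Multiplicative.toAdd h) i
      have h2 := B.sum_repr ⟨a, ha⟩
      have h3 : a = ∑ i, (B.repr ⟨a, ha⟩ i) • b i := by
        have := congrArg Subtype.val h2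
        rw [Submodule.coe_sum] at this
        exact this.symm
      rw [h3, Finset.sum_apply]
      apply Finset.sum_eq_zero
      intro i _
      show (B.repr ⟨a, ha⟩ i) • (b i ⟨n.1, n.2⟩) = 0
      have : b i ⟨n.1, n.2⟩ = 0 := h1 i
      rw [this, smul_zero]
    · rintro ⟨_, h⟩
      apply Multiplicative.toAdd.injective
      funext i
      exact h (b i) (B i).2
  have hrange : Ψ.range = ⊤ := by
    rw [MonoidHom.range_eq_top]
    intro v
    obtain ⟨n, hn⟩ := hsurj (Multiplicative.toAdd v)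
    exact ⟨n, congrArg Multiplicative.ofAdd hn⟩
  have h1 := Subgroup.index_ker Ψ
  rw [hker, hrange] at h1
  show ((kerOf N l S hS).subgroupOf N).index = l ^ d
  rw [h1, Subgroup.card_top]
  have : Nat.card (Multiplicative (Fin d → ZMod l)) = Nat.card (Fin d → ZMod l) := rfl
  rw [this, Nat.card_fun]
  simp

variable [hNn : N.Normal]

theorem kerOf_normal (S : Submodule (ZMod l) (N → ZMod l)) (hS : S ≤ homs N (ZMod l))
    (hinv : ∀ g : Delta, ∀ a ∈ S, (fun n : N => a ⟨g * n.1 * g⁻¹, hNn.conj_mem n.1 n.2 g⟩) ∈ S) :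
    (kerOf N l S hS).Normal := by
  constructor
  rintro m ⟨hm, hm'⟩ g
  exact ⟨hNn.conj_mem m hm g, fun a ha => hm' _ (hinv g a ha)⟩

theorem conj_mem_homs (g : Delta) {a : N → ZMod l} (ha : a ∈ homs N (ZMod l)) :
    (fun n : N => a ⟨g * n.1 * g⁻¹, hNn.conj_mem n.1 n.2 g⟩) ∈ homs N (ZMod l) := by
  intro m n
  show a _ = a _ + a _
  rw [← ha]
  congr 1
  apply Subtype.ext
  show g * (m.1 * n.1) * g⁻¹ = (g * m.1 * g⁻¹) * (g * n.1 * g⁻¹)
  group

end

/-- The homomorphisms vanishing on a subgroup `K`. -/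
def vanish (N : Subgroup Delta) (l : ℕ) [Fact l.Prime] (K : Subgroup Delta) :
    Submodule (ZMod l) (N → ZMod l) where
  carrier := {a | a ∈ homs N (ZMod l) ∧ ∀ n : N, n.1 ∈ K → a n = 0}
  zero_mem' := ⟨Submodule.zero_mem _, fun _ _ => rfl⟩
  add_mem' := by
    rintro a b ⟨ha, ha'⟩ ⟨hb, hb'⟩
    refine ⟨Submodule.add_mem _ ha hb, fun n hn => ?_⟩
    rw [Pi.add_apply, ha' n hn, hb' n hn, add_zero]
  smul_mem' := by
    rintro c a ⟨ha, ha'⟩
    refine ⟨Submodule.smul_mem _ c ha, fun n hn => ?_⟩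
    rw [Pi.smul_apply, ha' n hn, smul_zero]

section

variable (l : ℕ) [hlp : Fact l.Prime]

theorem normal_le_of_index (hl168 : 168 < l) (N : Subgroup Delta) [N.Normal]
    (hN : N.index = 168) (K : Subgroup Delta) [K.Normal] (hK : K.index = 168 * l ^ 6) : K ≤ N := by
  have hK0 : K.index ≠ 0 := by
    rw [hK]; exact Nat.mul_ne_zero (by norm_num) (pow_ne_zero _ hlp.out.ne_zero)
  have hfin : Finite (Delta ⧸ K) := Nat.finite_of_card_ne_zero hK0
  have hcard : Nat.card (Delta ⧸ K) = 168 * l ^ 6 := hK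
  obtain ⟨P⟩ : Nonempty (Sylow l (Delta ⧸ K)) := inferInstance
  have hnd : ¬ l ∣ (P : Subgroup (Delta ⧸ K)).index := P.not_dvd_index
  have hPi : (P : Subgroup (Delta ⧸ K)).index ∣ 168 := by
    have h1 : (P : Subgroup (Delta ⧸ K)).index ∣ 168 * l ^ 6 := by
      rw [← hcard]; exact Subgroup.index_dvd_card _
    exact Nat.Coprime.dvd_of_dvd_mul_right
      ((((Nat.Prime.coprime_iff_not_dvd hlp.out).2 hnd).pow_left 6).symm) h1
  have hn : Nat.card (Sylow l (Delta ⧸ K)) = 1 := by
    have h1 := P.card_dvd_index.trans hPi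
    have h2 := card_sylow_modEq_one l (Delta ⧸ K)
    have h3 := Nat.le_of_dvd (by norm_num) h1
    unfold Nat.ModEq at h2
    rw [Nat.mod_eq_of_lt (by omega), Nat.mod_eq_of_lt (by omega)] at h2
    exact h2
  have hsub : Subsingleton (Sylow l (Delta ⧸ K)) := (Nat.card_eq_one_iff_unique.1 hn).1
  have hPn := P.normal_of_subsingleton
  have hπs : Function.Surjective (QuotientGroup.mk' K) := QuotientGroup.mk'_surjective K
  have hci : ((P : Subgroup (Delta ⧸ K)).comap (QuotientGroup.mk' K)).index =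
      (P : Subgroup (Delta ⧸ K)).index := Subgroup.index_comap_of_surjective _ hπs
  have hne : ((P : Subgroup (Delta ⧸ K)).comap (QuotientGroup.mk' K)) ≠ ⊤ := by
    intro ht
    rw [ht, Subgroup.index_top] at hci
    have h1 := Subgroup.card_mul_index (P : Subgroup (Delta ⧸ K))
    rw [← hci, mul_one, hcard] at h1
    obtain ⟨m, hm⟩ := IsPGroup.iff_card.1 P.isPGroup'
    have hm' : Nat.card (P : Subgroup (Delta ⧸ K)) = l ^ m := hm
    rw [hm'] at h1
    have h2 : 2 ∣ l ^ m := by
      rw [h1]; exact Dvd.intro (84 * l ^ 6) (by ring)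
    have h3 := Nat.Prime.dvd_of_dvd_pow Nat.prime_two h2
    have h4 := (Nat.prime_dvd_prime_iff_eq Nat.prime_two hlp.out).1 h3
    omega
  have hci' := index_eq_168 _ hne (by rw [hci]; exact hPi)
  have := unique_168 _ N hci' hN
  rw [← this]
  intro x hx
  rw [Subgroup.mem_comap]
  have : QuotientGroup.mk' K x = 1 := (QuotientGroup.eq_one_iff _).2 hx
  rw [this]
  exact Subgroup.one_mem _

theorem exists_hom_of_card {G : Type*} [Group G] (hG : Nat.card G = l ^ 6) :
    ∃ a : G → ZMod l, (∀ m n, a (m * n) = a m + a n) ∧ a ≠ 0 := by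
  have hG0 : Nat.card G ≠ 0 := by rw [hG]; exact pow_ne_zero _ hlp.out.ne_zero
  have hfin : Finite G := Nat.finite_of_card_ne_zero hG0
  obtain ⟨H, hH⟩ := Sylow.exists_subgroup_card_pow_prime (G := G) l (n := 5)
    (by rw [hG]; exact pow_dvd_pow _ (by norm_num))
  have hHi : H.index = l := by
    have h1 := Subgroup.card_mul_index H
    rw [hH, hG, pow_succ] at h1
    exact Nat.eq_of_mul_eq_mul_left (pow_pos hlp.out.pos 5) h1
  have hHn : H.Normal := by
    apply Subgroup.normal_of_index_eq_minFac_card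
    rw [hG, hHi, Nat.Prime.pow_minFac hlp.out (by norm_num)]
  have hq : Nat.card (G ⧸ H) = l := hHi
  have hz : Nat.card (Multiplicative (ZMod l)) = l := by
    have : Nat.card (Multiplicative (ZMod l)) = Nat.card (ZMod l) := rfl
    rw [this, Nat.card_zmod]
  let e : G ⧸ H ≃* Multiplicative (ZMod l) := mulEquivOfPrimeCardEq hq hz
  refine ⟨fun g => Multiplicative.toAdd (e (QuotientGroup.mk' H g)), ?_, ?_⟩
  · intro m n
    show Multiplicative.toAdd (e (QuotientGroup.mk' H (m * n))) = _
    rw [map_mul, map_mul]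
    rfl
  · intro h
    have h1 : ∀ g : G, g ∈ H := by
      intro g
      have h2 : Multiplicative.toAdd (e (QuotientGroup.mk' H g)) = 0 := congrFun h g
      have h3 : e (QuotientGroup.mk' H g) = 1 := Multiplicative.toAdd.injective h2
      have h4 : QuotientGroup.mk' H g = 1 := by
        apply e.injective; rw [h3, map_one]
      exact (QuotientGroup.eq_one_iff _).1 h4
    have h5 : H = ⊤ := by rw [eq_top_iff]; intro g _; exact h1 g
    rw [h5, Subgroup.index_top] at hHi
    exact hlp.out.one_lt.ne hHi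

theorem existsUnique_index (hl168 : 168 < l) (hl : l % 7 = 3 ∨ l % 7 = 5) :
    ∃ K₀ : Subgroup Delta, (K₀.Normal ∧ K₀.index = 168 * l ^ 6) ∧
      ∀ K : Subgroup Delta, K.Normal → K.index = 168 * l ^ 6 → K = K₀ := by
  obtain ⟨N, hNn, hN⟩ := exists_index_168
  have h168 : (168 : ZMod l) ≠ 0 := by
    intro h
    have h1 : ((168 : ℕ) : ZMod l) = 0 := by exact_mod_cast h
    rw [ZMod.natCast_eq_zero_iff] at h1
    have := Nat.le_of_dvd (by norm_num) h1
    omega
  have hfr := finrank_homs N (ZMod l) hN h168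
  have hfinite : Module.Finite (ZMod l) (homs N (ZMod l)) :=
    Module.finite_of_finrank_pos (by rw [hfr]; norm_num)
  have hK₀n : (kerOf N l (homs N (ZMod l)) le_rfl).Normal :=
    kerOf_normal N l _ _ (fun g a ha => conj_mem_homs N l g ha)
  have hK₀i : (kerOf N l (homs N (ZMod l)) le_rfl).index = 168 * l ^ 6 := by
    rw [← Subgroup.relIndex_mul_index (kerOf_le N l (homs N (ZMod l)) le_rfl), relIndex_kerOf, hfr,
      hN, mul_comm]
  refine ⟨kerOf N l (homs N (ZMod l)) le_rfl, ⟨hK₀n, hK₀i⟩, ?_⟩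
  intro K hKn hKi
  have hKN : K ≤ N := normal_le_of_index l hl168 N hN K hKi
  have hrel : K.relIndex N = l ^ 6 := by
    have h1 := Subgroup.relIndex_mul_index hKN
    rw [hN, hKi, mul_comm 168] at h1
    exact Nat.eq_of_mul_eq_mul_right (by norm_num) h1
  have hS : vanish N l K ≤ homs N (ZMod l) := fun a ha => ha.1
  have hSfin : Module.Finite (ZMod l) (vanish N l K) := Submodule.finiteDimensional_of_le hS
  have hMn : (kerOf N l (vanish N l K) hS).Normal := by
    apply kerOf_normal
    rintro g a ⟨ha, ha'⟩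
    refine ⟨conj_mem_homs N l g ha, fun n hn => ha' _ ?_⟩
    exact hKn.conj_mem _ hn g
  have hMN := kerOf_le N l (vanish N l K) hS
  have hKM : K ≤ kerOf N l (vanish N l K) hS := by
    intro x hx
    exact ⟨hKN hx, fun a ha => ha.2 _ hx⟩
  have hMrel := relIndex_kerOf N l (vanish N l K) hS
  -- the space is nonzero
  have hd1 : 1 ≤ finrank (ZMod l) (vanish N l K) := by
    by_contra hlt
    have h0 : finrank (ZMod l) (vanish N l K) = 0 := by omega
    have h1 : vanish N l K = ⊥ := by
      rw [← Submodule.finrank_eq_zero (R := ZMod l)]; exact h0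
    have hcardG : Nat.card (N ⧸ K.subgroupOf N) = l ^ 6 := hrel
    have hKsn : (K.subgroupOf N).Normal := hKn.subgroupOf N
    obtain ⟨a, ha, ha0⟩ := exists_hom_of_card l hcardG
    apply ha0
    have h2 : (fun n : N => a (QuotientGroup.mk' (K.subgroupOf N) n)) ∈ vanish N l K := by
      refine ⟨?_, ?_⟩
      · intro m n
        show a _ = a _ + a _
        rw [map_mul, ha]
      · intro n hn
        show a _ = 0
        have h3 : QuotientGroup.mk' (K.subgroupOf N) n = 1 :=
          (QuotientGroup.eq_one_iff _).2 (Subgroup.mem_subgroupOf.2 hn)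
        rw [h3]
        have := ha 1 1
        rw [mul_one] at this
        exact left_eq_add.1 this
    rw [h1, Submodule.mem_bot] at h2
    funext q
    obtain ⟨n, rfl⟩ := QuotientGroup.mk'_surjective _ q
    exact congrFun h2 n
  have hd6 : finrank (ZMod l) (vanish N l K) ≤ 6 := by
    rw [← hfr]; exact Submodule.finrank_mono hS
  have hpow : ∀ n ∈ N, n ^ l ∈ kerOf N l (vanish N l K) hS := by
    intro n hn
    refine ⟨N.pow_mem hn l, fun a ha => ?_⟩
    have h1 := homs_pow N l ha.1 ⟨n, hn⟩ l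
    rw [CharP.cast_eq_zero, zero_mul] at h1
    exact h1
  have hdn5 : ¬ finrank (ZMod l) (vanish N l K) ≤ 5 := by
    intro h5
    exact no_small N hN _ hMN l hlp.out hl168 hl hpow _ hMrel hd1 h5
  have hd : finrank (ZMod l) (vanish N l K) = 6 := by omega
  have hSeq : vanish N l K = homs N (ZMod l) :=
    Submodule.eq_of_le_of_finrank_eq hS (by rw [hd, hfr])
  have hKK₀ : K ≤ kerOf N l (homs N (ZMod l)) le_rfl := by
    intro x hx
    refine ⟨hKN hx, fun a ha => ?_⟩
    rw [← hSeq] at ha
    exact ha.2 _ hx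
  exact eq_of_le_of_index_eq hKK₀
    (by rw [hKi]; exact Nat.mul_ne_zero (by norm_num) (pow_ne_zero _ hlp.out.ne_zero))
    (by rw [hKi, hK₀i])

end

end Pool.Agent.Helper23.Hurwitz
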