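import Pool.Agent.Helper23.Hurwitz.Basic

/-!
# Definitions for the count of Hurwitz surfaces
-/

namespace Pool.Agent.Helper23.Hurwitz

/-- `K` contains no nontrivial conjugate of a power of `x`, `y` or `xy`. Every torsion element of
the triangle group is conjugate to a power of `x`, `y` or `xy` (classical), so this says that
`K` is torsion-free. -/
def IsSmooth (K : Subgroup Delta) : Prop :=
  ∀ t : Delta, (t = gx ∨ t = gy ∨ t = gx * gy) → ∀ (n : ℕ) (g : Delta),
    g * t ^ n * g⁻¹ ∈ K → t ^ n = 1

/-- The number `h(g)` of Hurwitz surfaces of genus `g`: the number of smooth (torsion-free) normal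
subgroups of index `84(g - 1)` of the `(2,3,7)` triangle group. -/
noncomputable def hurwitzNumber (g : ℕ) : ℕ :=
  Nat.card {K : Subgroup Delta // K.Normal ∧ K.index = 84 * (g - 1) ∧ IsSmooth K}

/-- The abscissa of convergence `inf {s ∈ ℝ : ∑_{g ∈ U} g^(-s) < ∞}`, as an extended real. -/
noncomputable def abscissa (U : Set ℕ) : EReal :=
  sInf {s : EReal | ∃ r : ℝ, s = (r : EReal) ∧ Summable (fun g : U => ((g : ℕ) : ℝ) ^ (-r))}

theorem isSmooth_of_ne_top (K : Subgroup Delta) [hK : K.Normal] (h : K ≠ ⊤) : IsSmooth K := by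
  have key : ∀ (t : Delta) (p : ℕ), p.Prime → t ^ p = 1 → t ∉ K → ∀ (n : ℕ) (g : Delta),
      g * t ^ n * g⁻¹ ∈ K → t ^ n = 1 := by
    intro t p hp htp htK n g hg
    by_contra hne
    apply htK
    have h1 : t ^ n ∈ K := by
      have := hK.conj_mem _ hg g⁻¹
      simpa [mul_assoc] using this
    have hto : orderOf t = p := by
      have : Fact p.Prime := ⟨hp⟩
      apply orderOf_eq_prime htp
      intro ht1
      rw [ht1, one_pow] at hne
      exact hne rfl
    have hc : n.Coprime (orderOf t) := by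
      rw [hto, Nat.coprime_comm, Nat.Prime.coprime_iff_not_dvd hp]
      rintro ⟨c, rfl⟩
      apply hne
      rw [pow_mul, htp, one_pow]
    obtain ⟨m, hm⟩ := exists_pow_eq_self_of_coprime hc
    rw [← hm]
    exact K.pow_mem h1 m
  rintro t (rfl | rfl | rfl) n g hg
  · exact key gx 2 Nat.prime_two gx_sq (fun hx => h (eq_top_of_gx_mem K hx)) n g hg
  · exact key gy 3 Nat.prime_three gy_cube (fun hy => h (eq_top_of_gy_mem K hy)) n g hg
  · exact key (gx * gy) 7 (by norm_num) gz_pow (fun hz => h (eq_top_of_gz_mem K hz)) n g hg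

end Pool.Agent.Helper23.Hurwitz
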