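import Mathlib

/-!
# Linear algebra for functions on a finite group
-/

namespace Pool.Agent.Helper23.Hurwitz

open Module

section

variable {R : Type*} [Group R] {k : Type*} [Field k]

/-- Right translation of functions. -/
def tr (g : R) : (R → k) →ₗ[k] (R → k) where
  toFun f := fun r => f (r * g)
  map_add' _ _ := rfl
  map_smul' _ _ := rfl

@[simp] theorem tr_apply (g : R) (f : R → k) (r : R) : tr g f r = f (r * g) := rfl

/-- The norm map `f ↦ ∑_{i<m} f(· gⁱ)`. -/
def nrm (m : ℕ) (g : R) : (R → k) →ₗ[k] (R → k) where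
  toFun f := fun r => ∑ i ∈ Finset.range m, f (r * g ^ i)
  map_add' f f' := by
    funext r
    simp [Finset.sum_add_distrib]
  map_smul' c f := by
    funext r
    simp [Finset.mul_sum]

theorem nrm_apply (m : ℕ) (g : R) (f : R → k) (r : R) :
    nrm m g f r = ∑ i ∈ Finset.range m, f (r * g ^ i) := rfl

theorem nrm_mul_right {m : ℕ} {g : R} (hg : g ^ m = 1) (f : R → k) (r : R) :
    nrm m g f (r * g) = nrm m g f r := by
  rw [nrm_apply, nrm_apply]
  have h1 : ∀ i, f (r * g * g ^ i) = f (r * g ^ (i + 1)) := by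
    intro i; rw [mul_assoc, ← pow_succ']
  simp_rw [h1]
  have h2 := Finset.sum_range_succ (fun i => f (r * g ^ i)) m
  have h3 := Finset.sum_range_succ' (fun i => f (r * g ^ i)) m
  rw [h2] at h3
  simp only [hg, pow_zero] at h3
  exact (add_right_cancel h3).symm

/-- Functions on the left cosets of `⟨g⟩`, as functions on the group. -/
def pull (g : R) : ((R ⧸ Subgroup.zpowers g) → k) →ₗ[k] (R → k) where
  toFun φ := fun r => φ (QuotientGroup.mk r)
  map_add' _ _ := rfl
  map_smul' _ _ := rfl

theorem pull_injective (g : R) : Function.Injective (pull (k := k) g) := by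
  intro φ ψ h
  funext q
  obtain ⟨r, rfl⟩ := QuotientGroup.mk_surjective q
  exact congrFun h r

theorem range_nrm (g : R) (m : ℕ) (hg : g ^ m = 1) (hk : (m : k) ≠ 0) :
    LinearMap.range (nrm (k := k) m g) = LinearMap.range (pull (k := k) g) := by
  apply le_antisymm
  · rintro _ ⟨f, rfl⟩
    refine ⟨fun q => nrm m g f q.out, ?_⟩
    funext r
    show nrm m g f (QuotientGroup.mk r : R ⧸ Subgroup.zpowers g).out = nrm m g f r
    have hz : ∀ (n : ℕ) (s : R), nrm m g f (s * g ^ n) = nrm m g f s := by
      intro n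
      induction n with
      | zero => intro s; simp
      | succ n ih => intro s; rw [pow_succ, ← mul_assoc, nrm_mul_right hg, ih]
    have hm0 : m ≠ 0 := by rintro rfl; simp at hk
    have h1 : r⁻¹ * (QuotientGroup.mk r : R ⧸ Subgroup.zpowers g).out ∈ Subgroup.zpowers g := by
      rw [← QuotientGroup.eq, QuotientGroup.out_eq']
    have h2 : ∃ n : ℕ, g ^ n = r⁻¹ * (QuotientGroup.mk r : R ⧸ Subgroup.zpowers g).out := by
      have hfin : IsOfFinOrder g := isOfFinOrder_iff_pow_eq_one.2 ⟨m, Nat.pos_of_ne_zero hm0, hg⟩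
      exact hfin.mem_powers_iff_mem_zpowers.2 h1
    obtain ⟨n, hn⟩ := h2
    have h3 : (QuotientGroup.mk r : R ⧸ Subgroup.zpowers g).out = r * g ^ n := by
      rw [hn]; group
    rw [h3, hz]
  · rintro _ ⟨φ, rfl⟩
    refine ⟨(m : k)⁻¹ • pull g φ, ?_⟩
    rw [map_smul]
    funext r
    have : nrm m g (pull g φ) r = (m : k) * pull g φ r := by
      rw [nrm_apply]
      have h1 : ∀ i ∈ Finset.range m, pull g φ (r * g ^ i) = pull g φ r := by
        intro i _
        show φ (QuotientGroup.mk (r * g ^ i)) = φ (QuotientGroup.mk r)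
        congr 1
        apply QuotientGroup.eq.2
        rw [mul_inv_rev, mul_assoc, inv_mul_cancel, mul_one]
        exact Subgroup.inv_mem _ (Subgroup.npow_mem_zpowers g i)
      rw [Finset.sum_congr rfl h1]
      simp
    show (m : k)⁻¹ * nrm m g (pull g φ) r = pull g φ r
    rw [this, ← mul_assoc, inv_mul_cancel₀ hk, one_mul]

variable [Finite R]

theorem finrank_ker_nrm (g : R) (m : ℕ) (hg : g ^ m = 1) (hk : (m : k) ≠ 0) :
    finrank k (LinearMap.ker (nrm (k := k) m g)) + Nat.card (R ⧸ Subgroup.zpowers g) =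
      Nat.card R := by
  have hft : Fintype R := Fintype.ofFinite R
  have h1 := LinearMap.finrank_range_add_finrank_ker (nrm (k := k) m g)
  rw [range_nrm g m hg hk, LinearMap.finrank_range_of_inj (pull_injective g)] at h1
  have h2 : finrank k (R → k) = Nat.card R := by
    rw [Module.finrank_fintype_fun_eq_card, Nat.card_eq_fintype_card]
  have hfq : Fintype (R ⧸ Subgroup.zpowers g) := Fintype.ofFinite _
  have h3 : finrank k ((R ⧸ Subgroup.zpowers g) → k) = Nat.card (R ⧸ Subgroup.zpowers g) := by
    rw [Module.finrank_fintype_fun_eq_card, Nat.card_eq_fintype_card]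
  rw [h2, h3] at h1
  omega

/-- The sum functional. -/
noncomputable def total : (R → k) →ₗ[k] k :=
  have : Fintype R := Fintype.ofFinite R
  ∑ r : R, LinearMap.proj r

theorem total_apply [Fintype R] (f : R → k) : total f = ∑ r, f r := by
  unfold total
  simp only [LinearMap.coe_sum, LinearMap.coe_proj, Finset.sum_apply, Function.eval]
  apply Finset.sum_congr
  · ext; simp
  · intro _ _; rfl

theorem total_tr (g : R) (f : R → k) : total (tr g f) = total f := by
  have hft : Fintype R := Fintype.ofFinite R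
  rw [total_apply, total_apply]
  exact Fintype.sum_equiv (Equiv.mulRight g) _ _ (fun r => rfl)

theorem total_of_mem_ker (g : R) (m : ℕ) (hk : (m : k) ≠ 0) (f : R → k)
    (hf : nrm m g f = 0) : total f = 0 := by
  have hft : Fintype R := Fintype.ofFinite R
  have h1 : total (nrm m g f) = (m : k) * total f := by
    have : nrm m g f = ∑ i ∈ Finset.range m, tr (g ^ i) f := by
      funext r
      rw [nrm_apply, Finset.sum_apply]
      rfl
    rw [this, map_sum]
    rw [Finset.sum_congr rfl (fun i _ => total_tr (g ^ i) f)]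
    simp
  rw [hf, map_zero] at h1
  rcases mul_eq_zero.1 h1.symm with h | h
  · exact absurd h hk
  · exact h

/-- The pairs `(u, v)` of values at `x, y` of a crossed homomorphism. -/
def cocyc (x y : R) : Submodule k ((R → k) × (R → k)) where
  carrier := {p | nrm 2 x p.1 = 0 ∧ nrm 3 y p.2 = 0 ∧ nrm 7 (x * y) (p.1 + tr x p.2) = 0}
  zero_mem' := by simp
  add_mem' := by
    rintro p q ⟨h1, h2, h3⟩ ⟨h1', h2', h3'⟩
    refine ⟨?_, ?_, ?_⟩
    · show nrm 2 x (p.1 + q.1) = 0
      rw [map_add, h1, h1', add_zero]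
    · show nrm 3 y (p.2 + q.2) = 0
      rw [map_add, h2, h2', add_zero]
    · show nrm 7 (x * y) (p.1 + q.1 + tr x (p.2 + q.2)) = 0
      rw [map_add (tr x), add_add_add_comm, map_add, h3, h3', add_zero]
  smul_mem' := by
    rintro c p ⟨h1, h2, h3⟩
    refine ⟨?_, ?_, ?_⟩
    · show nrm 2 x (c • p.1) = 0
      rw [map_smul, h1, smul_zero]
    · show nrm 3 y (c • p.2) = 0
      rw [map_smul, h2, smul_zero]
    · show nrm 7 (x * y) (c • p.1 + tr x (c • p.2)) = 0
      rw [map_smul (tr x), ← smul_add, map_smul, h3, smul_zero]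

/-- The map `(a, b, c) ↦ a + x b - c`. -/
def beta (x y : R) : (LinearMap.ker (nrm (k := k) 2 x)) × (LinearMap.ker (nrm (k := k) 3 y)) ×
    (LinearMap.ker (nrm (k := k) 7 (x * y))) →ₗ[k] (R → k) :=
  LinearMap.coprod (Submodule.subtype _)
    (LinearMap.coprod ((tr x).comp (Submodule.subtype _)) (-(Submodule.subtype _)))

theorem beta_apply (x y : R) (a : LinearMap.ker (nrm (k := k) 2 x))
    (b : LinearMap.ker (nrm (k := k) 3 y)) (c : LinearMap.ker (nrm (k := k) 7 (x * y))) :
    beta x y (a, b, c) = (a : R → k) + (tr x (b : R → k) - (c : R → k)) := by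
  simp [beta, sub_eq_add_neg]

/-- The kernel of `beta` is the space of crossed homomorphisms. -/
def kerBetaEquiv (x y : R) : LinearMap.ker (beta (k := k) x y) ≃ₗ[k] cocyc (k := k) x y where
  toFun p := ⟨((p.1.1 : R → k), (p.1.2.1 : R → k)), by
    refine ⟨p.1.1.2, p.1.2.1.2, ?_⟩
    have h := p.2
    rw [LinearMap.mem_ker] at h
    have h' : beta x y (p.1.1, p.1.2.1, p.1.2.2) = 0 := h
    rw [beta_apply, ← add_sub_assoc, sub_eq_zero] at h'
    show nrm 7 (x * y) ((p.1.1 : R → k) + tr x (p.1.2.1 : R → k)) = 0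
    rw [h']
    exact p.1.2.2.2⟩
  map_add' _ _ := rfl
  map_smul' _ _ := rfl
  invFun q := ⟨(⟨q.1.1, q.2.1⟩, ⟨q.1.2, q.2.2.1⟩, ⟨q.1.1 + tr x q.1.2, q.2.2.2⟩), by
    rw [LinearMap.mem_ker, beta_apply]
    show q.1.1 + (tr x q.1.2 - (q.1.1 + tr x q.1.2)) = 0
    abel⟩
  left_inv p := by
    have h := p.2
    rw [LinearMap.mem_ker] at h
    have h' : beta x y (p.1.1, p.1.2.1, p.1.2.2) = 0 := h
    rw [beta_apply, ← add_sub_assoc, sub_eq_zero] at h'
    apply Subtype.ext
    refine Prod.ext rfl (Prod.ext rfl ?_)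
    apply Subtype.ext
    exact h'
  right_inv q := rfl

theorem range_beta (x y : R) (hx : x ^ 2 = 1) (hy : y ^ 3 = 1)
    (hgen : Subgroup.closure {x, y} = (⊤ : Subgroup R))
    (h2 : (2 : k) ≠ 0) (h3 : (3 : k) ≠ 0) (h7 : (7 : k) ≠ 0) (hR : (Nat.card R : k) ≠ 0) :
    LinearMap.range (beta (k := k) x y) = LinearMap.ker (total (R := R) (k := k)) := by
  have hft : Fintype R := Fintype.ofFinite R
  apply le_antisymm
  · rintro _ ⟨⟨a, b, c⟩, rfl⟩
    rw [LinearMap.mem_ker, beta_apply, map_add, map_sub, total_tr,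
      total_of_mem_ker x 2 (by exact_mod_cast h2) _ a.2,
      total_of_mem_ker y 3 (by exact_mod_cast h3) _ b.2,
      total_of_mem_ker (x * y) 7 (by exact_mod_cast h7) _ c.2]
    simp
  · -- the range contains all `f - T_g f`
    have hX : ∀ f : R → k, f - tr x f ∈ LinearMap.range (beta (k := k) x y) := by
      intro f
      have hm : f - tr x f ∈ LinearMap.ker (nrm (k := k) 2 x) := by
        rw [LinearMap.mem_ker]
        funext r
        rw [nrm_apply]
        simp [Finset.sum_range_succ, mul_assoc, ← sq, hx]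
        ring
      refine ⟨(⟨_, hm⟩, 0, 0), ?_⟩
      rw [beta_apply]
      simp
    have hY : ∀ f : R → k, f - tr y f ∈ LinearMap.range (beta (k := k) x y) := by
      intro f
      have hm : f - tr y f ∈ LinearMap.ker (nrm (k := k) 3 y) := by
        rw [LinearMap.mem_ker]
        funext r
        rw [nrm_apply]
        have e : r * y ^ 2 * y = r := by rw [mul_assoc, ← pow_succ, hy, mul_one]
        have e2 : r * y * y = r * y ^ 2 := by rw [mul_assoc, ← sq]
        simp [Finset.sum_range_succ, e, e2]
        ring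
      have h1 : tr x (f - tr y f) ∈ LinearMap.range (beta (k := k) x y) := by
        refine ⟨(0, ⟨_, hm⟩, 0), ?_⟩
        rw [beta_apply]
        simp
      have h2 := Submodule.add_mem _ h1 (hX (f - tr y f))
      have h3 : tr x (f - tr y f) + (f - tr y f - tr x (f - tr y f)) = f - tr y f := by abel
      rwa [h3] at h2
    have hall : ∀ g : R, ∀ f : R → k, f - tr g f ∈ LinearMap.range (beta (k := k) x y) := by
      intro g
      have hg : g ∈ Subgroup.closure {x, y} := by rw [hgen]; trivial
      induction hg using Subgroup.closure_induction with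
      | mem t ht =>
        intro f
        rcases ht with rfl | ht
        · exact hX f
        · rw [Set.mem_singleton_iff.mp ht]; exact hY f
      | one =>
        intro f
        have : f - tr (1 : R) f = 0 := by funext r; simp
        rw [this]; exact Submodule.zero_mem _
      | mul a b _ _ iha ihb =>
        intro f
        have h1 := Submodule.add_mem _ (ihb f) (iha (tr b f))
        have h2 : f - tr b f + (tr b f - tr a (tr b f)) = f - tr (a * b) f := by
          have : tr a (tr b f) = tr (a * b) f := by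
            funext r; simp [mul_assoc]
          rw [this]; abel
        rwa [h2] at h1
      | inv a _ iha =>
        intro f
        have h1 := Submodule.neg_mem _ (iha (tr a⁻¹ f))
        have h2 : -(tr a⁻¹ f - tr a (tr a⁻¹ f)) = f - tr a⁻¹ f := by
          have : tr a (tr a⁻¹ f) = f := by
            funext r; simp [mul_assoc]
          rw [this]; abel
        rwa [h2] at h1
    intro f hf
    rw [LinearMap.mem_ker, total_apply] at hf
    have h1 : ∑ g : R, (f - tr g f) ∈ LinearMap.range (beta (k := k) x y) :=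
      Submodule.sum_mem _ (fun g _ => hall g f)
    have h2 : ∑ g : R, (f - tr g f) = (Nat.card R : k) • f := by
      rw [Finset.sum_sub_distrib]
      have : ∑ g : R, tr g f = 0 := by
        funext r
        rw [Finset.sum_apply]
        have : ∑ g : R, (tr g f) r = ∑ g : R, f g :=
          Fintype.sum_equiv (Equiv.mulLeft r) _ _ (fun g => rfl)
        rw [this, hf]; rfl
      rw [this, sub_zero, Finset.sum_const, Finset.card_univ, Nat.card_eq_fintype_card]
      rw [Nat.cast_smul_eq_nsmul]
    rw [h2] at h1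
    have h3 := Submodule.smul_mem _ (Nat.card R : k)⁻¹ h1
    rwa [smul_smul, inv_mul_cancel₀ hR, one_smul] at h3

theorem finrank_ker_total : finrank k (LinearMap.ker (total (R := R) (k := k))) + 1 = Nat.card R := by
  have hft : Fintype R := Fintype.ofFinite R
  have h1 := LinearMap.finrank_range_add_finrank_ker (total (R := R) (k := k))
  have h2 : LinearMap.range (total (R := R) (k := k)) = ⊤ := by
    rw [LinearMap.range_eq_top]
    intro c
    classical
    refine ⟨Pi.single 1 c, ?_⟩
    rw [total_apply, Finset.sum_pi_single']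
    simp
  have h3 : finrank k (R → k) = Nat.card R := by
    rw [Module.finrank_fintype_fun_eq_card, Nat.card_eq_fintype_card]
  rw [h2, finrank_top, Module.finrank_self, h3] at h1
  omega

theorem card_quotient_zpowers (g : R) (m : ℕ) (hm : orderOf g = m) :
    Nat.card (R ⧸ Subgroup.zpowers g) * m = Nat.card R := by
  have h := Subgroup.card_eq_card_quotient_mul_card_subgroup (Subgroup.zpowers g)
  rw [Nat.card_zpowers, hm] at h
  exact h.symm

theorem finrank_cocyc (x y : R) (hx : orderOf x = 2) (hy : orderOf y = 3)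
    (hz : orderOf (x * y) = 7)
    (hgen : Subgroup.closure {x, y} = (⊤ : Subgroup R)) (hcard : Nat.card R = 168)
    (h168 : (168 : k) ≠ 0) : finrank k (cocyc (k := k) x y) = 173 := by
  have hft : Fintype R := Fintype.ofFinite R
  have e168 : (168 : k) = 2 ^ 3 * 3 * 7 := by norm_num
  have h2 : (2 : k) ≠ 0 := by
    intro h; apply h168; rw [e168, h]; simp
  have h3 : (3 : k) ≠ 0 := by
    intro h; apply h168; rw [e168, h]; simp
  have h7 : (7 : k) ≠ 0 := by
    intro h; apply h168; rw [e168, h]; simp
  have hx1 : x ^ 2 = 1 := by rw [← hx]; exact pow_orderOf_eq_one x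
  have hy1 : y ^ 3 = 1 := by rw [← hy]; exact pow_orderOf_eq_one y
  have hz1 : (x * y) ^ 7 = 1 := by rw [← hz]; exact pow_orderOf_eq_one (x * y)
  have r1 := range_beta (k := k) x y hx1 hy1 hgen h2 h3 h7 (by rw [hcard]; exact_mod_cast h168)
  have d1 := finrank_ker_nrm (k := k) x 2 hx1 (by exact_mod_cast h2)
  have d2 := finrank_ker_nrm (k := k) y 3 hy1 (by exact_mod_cast h3)
  have d3 := finrank_ker_nrm (k := k) (x * y) 7 hz1 (by exact_mod_cast h7)
  have c1 := card_quotient_zpowers x 2 hx
  have c2 := card_quotient_zpowers y 3 hy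
  have c3 := card_quotient_zpowers (x * y) 7 hz
  have d4 := finrank_ker_total (R := R) (k := k)
  have d5 := LinearMap.finrank_range_add_finrank_ker (beta (k := k) x y)
  rw [r1, Module.finrank_prod, Module.finrank_prod] at d5
  have d6 := (kerBetaEquiv (k := k) x y).finrank_eq
  rw [d6] at d5
  rw [hcard] at *
  omega

end

end Pool.Agent.Helper23.Hurwitz
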