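import Pool.Agent.Helper23.Hurwitz.Basic

/-!
# Quotients of order dividing 168
-/

namespace Pool.Agent.Helper23.Hurwitz

instance fact7 : Fact (Nat.Prime 7) := ⟨by norm_num⟩

section

variable (N : Subgroup Delta) [N.Normal]

theorem isPGroup_zpowers_gz (h : N ≠ ⊤) :
    IsPGroup 7 (Subgroup.zpowers (QuotientGroup.mk' N (gx * gy))) := by
  apply IsPGroup.of_card (n := 1)
  rw [Nat.card_zpowers, orderOf_mk_gz N h]; norm_num

theorem card_sylow_ne_one [Finite (Delta ⧸ N)] (h : N ≠ ⊤) :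
    Nat.card (Sylow 7 (Delta ⧸ N)) ≠ 1 := by
  intro hc
  have : Subsingleton (Sylow 7 (Delta ⧸ N)) := (Nat.card_eq_one_iff_unique.1 hc).1
  obtain ⟨P⟩ : Nonempty (Sylow 7 (Delta ⧸ N)) := inferInstance
  have := P.normal_of_subsingleton
  have hz : QuotientGroup.mk' N (gx * gy) ∈ (P : Subgroup (Delta ⧸ N)) := by
    obtain ⟨Q, hQ⟩ := (isPGroup_zpowers_gz N h).exists_le_sylow
    have hQP : Q = P := Subsingleton.elim _ _
    rw [← hQP]
    exact hQ (Subgroup.mem_zpowers _)
  have htop : (P : Subgroup (Delta ⧸ N)).comap (QuotientGroup.mk' N) = ⊤ :=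
    eq_top_of_gz_mem _ hz
  have hx : gx ∈ (P : Subgroup (Delta ⧸ N)).comap (QuotientGroup.mk' N) := by rw [htop]; trivial
  have hx' : QuotientGroup.mk' N gx ∈ (P : Subgroup (Delta ⧸ N)) := hx
  obtain ⟨k, hk⟩ := P.isPGroup' ⟨_, hx'⟩
  have hk' : (QuotientGroup.mk' N gx) ^ (7 ^ k) = 1 := by
    have := congrArg Subtype.val hk
    simpa using this
  have hd := orderOf_dvd_of_pow_eq_one hk'
  rw [orderOf_mk_gx N h] at hd
  have := (Nat.Prime.dvd_of_dvd_pow Nat.prime_two hd)
  omega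

/-- A proper normal subgroup of index dividing `168` has index `168` and its quotient has eight
Sylow `7`-subgroups. -/
theorem index_eq_168_aux [Finite (Delta ⧸ N)] (h : N ≠ ⊤) (hd : N.index ∣ 168) :
    N.index = 168 ∧ Nat.card (Sylow 7 (Delta ⧸ N)) = 8 := by
  have hcard : Nat.card (Delta ⧸ N) = N.index := rfl
  have h2 : 2 ∣ Nat.card (Delta ⧸ N) := by
    have := orderOf_dvd_natCard (QuotientGroup.mk' N gx)
    rwa [orderOf_mk_gx N h] at this
  have h3 : 3 ∣ Nat.card (Delta ⧸ N) := by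
    have := orderOf_dvd_natCard (QuotientGroup.mk' N gy)
    rwa [orderOf_mk_gy N h] at this
  have h7 : 7 ∣ Nat.card (Delta ⧸ N) := by
    have := orderOf_dvd_natCard (QuotientGroup.mk' N (gx * gy))
    rwa [orderOf_mk_gz N h] at this
  obtain ⟨P⟩ : Nonempty (Sylow 7 (Delta ⧸ N)) := inferInstance
  have hne := card_sylow_ne_one N h
  have hmod := card_sylow_modEq_one 7 (Delta ⧸ N)
  have hdvd := P.card_dvd_index
  have hnd : ¬ 7 ∣ (P : Subgroup (Delta ⧸ N)).index := P.not_dvd_index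
  have hPi : (P : Subgroup (Delta ⧸ N)).index ∣ 24 := by
    have h1 : (P : Subgroup (Delta ⧸ N)).index ∣ Nat.card (Delta ⧸ N) := Subgroup.index_dvd_card _
    have h2 : (P : Subgroup (Delta ⧸ N)).index ∣ 24 * 7 := h1.trans (by rw [hcard]; simpa using hd)
    exact Nat.Coprime.dvd_of_dvd_mul_right
      (((Nat.Prime.coprime_iff_not_dvd fact7.out).2 hnd).symm) h2
  have hn24 := hdvd.trans hPi
  have hn8 : Nat.card (Sylow 7 (Delta ⧸ N)) = 8 := by
    have hle := Nat.le_of_dvd (by norm_num) hn24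
    generalize Nat.card (Sylow 7 (Delta ⧸ N)) = n at hne hmod hn24 hle
    unfold Nat.ModEq at hmod
    interval_cases n <;> simp_all
  refine ⟨?_, hn8⟩
  have h8 : 8 ∣ Nat.card (Delta ⧸ N) := by
    rw [← hn8]
    exact hdvd.trans (Subgroup.index_dvd_card _)
  have : 168 ∣ Nat.card (Delta ⧸ N) := by
    have h21 : 3 * 7 ∣ Nat.card (Delta ⧸ N) := Nat.Coprime.mul_dvd_of_dvd_of_dvd (by norm_num) h3 h7
    have := Nat.Coprime.mul_dvd_of_dvd_of_dvd (by norm_num : Nat.Coprime 8 (3 * 7)) h8 h21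
    simpa using this
  exact Nat.dvd_antisymm hd (by rw [← hcard]; exact this)

theorem finite_quotient_of_index_dvd (hd : N.index ∣ 168) : Finite (Delta ⧸ N) := by
  have : N.index ≠ 0 := by
    intro h0
    rw [h0] at hd
    norm_num at hd
  exact Nat.finite_of_card_ne_zero (by rwa [Subgroup.index] at this)

theorem index_eq_168 (h : N ≠ ⊤) (hd : N.index ∣ 168) : N.index = 168 := by
  have := finite_quotient_of_index_dvd N hd
  exact (index_eq_168_aux N h hd).1

end

/-! ## Existence: the surjection onto `GL₃(𝔽₂)` -/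

/-- The image of `x` in `GL₃(𝔽₂)`. -/
def mX : Matrix (Fin 3) (Fin 3) (ZMod 2) := !![1, 1, 0; 0, 1, 0; 0, 0, 1]

/-- The image of `y` in `GL₃(𝔽₂)`. -/
def mY : Matrix (Fin 3) (Fin 3) (ZMod 2) := !![0, 0, 1; 1, 0, 0; 0, 1, 0]

theorem mX_sq : mX * mX = 1 := by decide

theorem mY_cube : mY * (mY * mY) = 1 := by decide

theorem mY_cube' : (mY * mY) * mY = 1 := by decide

theorem mZ_pow : (mX * mY) ^ 7 = 1 := by
  have h2 : (mX * mY) ^ 2 = !![1, 1, 1; 1, 0, 1; 1, 0, 0] := by decide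
  have h4 : (mX * mY) ^ 4 = !![1, 1, 0; 0, 1, 1; 1, 1, 1] := by
    rw [show 4 = 2 * 2 by norm_num, pow_mul, h2]; decide
  rw [show 7 = 4 + 2 + 1 by norm_num, pow_add, pow_add, h2, h4, pow_one]
  decide

/-- `x` as an element of `GL₃(𝔽₂)`. -/
def uX : GL (Fin 3) (ZMod 2) := ⟨mX, mX, mX_sq, mX_sq⟩

/-- `y` as an element of `GL₃(𝔽₂)`. -/
def uY : GL (Fin 3) (ZMod 2) := ⟨mY, mY * mY, mY_cube, mY_cube'⟩

theorem exists_index_168 : ∃ N : Subgroup Delta, N.Normal ∧ N.index = 168 := by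
  have h1 : uX ^ 2 = 1 := by
    apply Units.ext
    rw [Units.val_pow_eq_pow_val, sq]
    exact mX_sq
  have h2 : uY ^ 3 = 1 := by
    apply Units.ext
    rw [Units.val_pow_eq_pow_val, pow_succ, sq]
    exact mY_cube'
  have h3 : (uX * uY) ^ 7 = 1 := by
    apply Units.ext
    rw [Units.val_pow_eq_pow_val, Units.val_mul]
    exact mZ_pow
  obtain ⟨f, hfx, hfy⟩ := exists_lift uX uY h1 h2 h3
  refine ⟨f.ker, inferInstance, ?_⟩
  have hne : f.ker ≠ ⊤ := by
    intro h
    have : gx ∈ f.ker := by rw [h]; trivial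
    rw [MonoidHom.mem_ker, hfx] at this
    have h' := congrArg Units.val this
    have : mX = 1 := h'
    revert this
    decide
  apply index_eq_168 _ hne
  have hcard : Nat.card (GL (Fin 3) (ZMod 2)) = 168 := by
    rw [Matrix.card_GL_field]
    simp [Fin.prod_univ_three, ZMod.card]
  have : f.ker.index ∣ Nat.card (GL (Fin 3) (ZMod 2)) := by
    rw [Subgroup.index_ker]
    exact Subgroup.card_subgroup_dvd_card f.range
  rwa [hcard] at this

/-! ## Uniqueness: the action on the eight Sylow `7`-subgroups -/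

/-- The underlying function of the permutation induced by `xy`. -/
def cf : Fin 8 → Fin 8 := ![1, 2, 3, 4, 5, 6, 0, 7]

/-- A candidate for the permutation induced by `x`. -/
def Ff (a b c d : Fin 8) : Fin 8 → Fin 8 := ![7, 6, a, b, c, d, 1, 0]

/-- The conditions `x² = y³ = 1` for a candidate. -/
def ok (a b c d : Fin 8) : Bool := (List.finRange 8).all (fun i => Ff a b c d (Ff a b c d i) == i &&
  Ff a b c d (cf (Ff a b c d (cf (Ff a b c d (cf i))))) == i)

set_option maxRecDepth 100000 in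
theorem ok_iff : ∀ a b c d : Fin 8, ok a b c d = true → (a = 3 ∧ b = 2 ∧ c = 5 ∧ d = 4) := by
  decide +kernel

theorem ff_unique (f : Fin 8 → Fin 8) (h2 : ∀ i, f (f i) = i) (h7 : f 7 = 0)
    (h3 : ∀ i, f (cf (f (cf (f (cf i))))) = i) : f = Ff 3 2 5 4 := by
  have h0 : f 0 = 7 := by have := h2 7; rwa [h7] at this
  have h1 : f 1 = 6 := by
    have := h3 7
    have c7 : cf 7 = 7 := rfl
    have c0 : cf 0 = 1 := rfl
    rw [c7, h7, c0] at this
    have h' := congrArg f this
    rw [h2, h7] at h'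
    revert h'
    generalize f 1 = t
    revert t
    decide
  have h6 : f 6 = 1 := by have := h2 1; rwa [h1] at this
  have hf : f = Ff (f 2) (f 3) (f 4) (f 5) := by
    funext i
    fin_cases i
    · exact h0
    · exact h1
    · rfl
    · rfl
    · rfl
    · rfl
    · exact h6
    · exact h7
  have hok : ok (f 2) (f 3) (f 4) (f 5) = true := by
    unfold ok
    rw [← hf]
    rw [List.all_eq_true]
    intro i _
    simp [h2, h3]
  obtain ⟨ha, hb, hc, hd⟩ := ok_iff _ _ _ _ hok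
  rw [hf, ha, hb, hc, hd]

end Pool.Agent.Helper23.Hurwitz
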