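import Pool.Agent.Helper23.Hurwitz.Order168

/-!
# Uniqueness of the normal subgroup of index 168
-/

namespace Pool.Agent.Helper23.Hurwitz

theorem eq_of_le_of_index_eq {G : Type*} [Group G] {H K : Subgroup G} (h : H ≤ K)
    (h0 : H.index ≠ 0) (hi : H.index = K.index) : H = K := by
  have h1 := Subgroup.relIndex_mul_index h
  rw [← hi] at h1
  have h2 : H.relIndex K = 1 := by
    have : H.relIndex K * H.index = 1 * H.index := by rw [h1, one_mul]
    exact Nat.eq_of_mul_eq_mul_right (Nat.pos_of_ne_zero h0) this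
  exact le_antisymm h (Subgroup.relIndex_eq_one.1 h2)

section

variable (N : Subgroup Delta) [N.Normal]

theorem ne_top_of_index (h : N.index = 168) : N ≠ ⊤ := by
  intro h1
  rw [h1, Subgroup.index_top] at h
  norm_num at h

theorem card_sylow (h : N.index = 168) [Finite (Delta ⧸ N)] (Q : Sylow 7 (Delta ⧸ N)) :
    Nat.card Q = 7 := by
  have hcard : Nat.card (Delta ⧸ N) = 168 := h
  have hnd : ¬ 7 ∣ (Q : Subgroup (Delta ⧸ N)).index := Q.not_dvd_index
  have h1 := Subgroup.card_mul_index (Q : Subgroup (Delta ⧸ N))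
  rw [hcard] at h1
  obtain ⟨k, hk⟩ := IsPGroup.iff_card.1 Q.isPGroup'
  have hk' : Nat.card (Q : Subgroup (Delta ⧸ N)) = 7 ^ k := hk
  rw [hk'] at h1
  show Nat.card (Q : Subgroup (Delta ⧸ N)) = 7
  rw [hk']
  rcases k with _ | _ | k
  · exfalso
    apply hnd
    simp at h1
    rw [h1]; norm_num
  · norm_num
  · exfalso
    have : 49 ∣ 168 := by
      rw [← h1]
      exact Dvd.intro (7 ^ k * (Q : Subgroup (Delta ⧸ N)).index) (by ring)
    norm_num at this

theorem exists_perm_rep (h : N.index = 168) :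
    ∃ ρ : Delta →* Equiv.Perm (Fin 8), (∀ i, ρ gx i = Ff 3 2 5 4 i) ∧
      (∀ i, ρ (gx * gy) i = cf i) ∧ ρ.ker = N := by
  have hN := ne_top_of_index N h
  have hfin : Finite (Delta ⧸ N) := finite_quotient_of_index_dvd N (by rw [h])
  have hn8 : Nat.card (Sylow 7 (Delta ⧸ N)) = 8 := (index_eq_168_aux N hN (by rw [h])).2
  set π := QuotientGroup.mk' N with hπ
  set zb := π (gx * gy) with hzb
  set xb := π gx with hxb
  have hzo : orderOf zb = 7 := orderOf_mk_gz N hN
  have hz7 : zb ^ 7 = 1 := by rw [← hzo]; exact pow_orderOf_eq_one _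
  have hx2 : xb * xb = 1 := by
    rw [hxb, ← map_mul, ← sq, gx_sq, map_one]
  obtain ⟨P₀, hP₀⟩ := (isPGroup_zpowers_gz N hN).exists_le_sylow
  have hzP : zb ∈ (P₀ : Subgroup (Delta ⧸ N)) := hP₀ (Subgroup.mem_zpowers _)
  have hsyl : ∀ Q : Sylow 7 (Delta ⧸ N), zb ∈ (Q : Subgroup (Delta ⧸ N)) →
      Subgroup.zpowers zb = (Q : Subgroup (Delta ⧸ N)) := by
    intro Q hQ
    apply Subgroup.eq_of_le_of_card_ge
    · rw [Subgroup.zpowers_le]; exact hQ
    · have := card_sylow N h Q
      rw [Nat.card_zpowers, hzo]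
      exact le_of_eq this
  have hfix : ∀ Q : Sylow 7 (Delta ⧸ N), zb • Q = Q → Q = P₀ := by
    intro Q hQ
    rw [Sylow.smul_eq_iff_mem_normalizer] at hQ
    have h1 : Subgroup.zpowers zb ≤ Subgroup.normalizer (Q : Set (Delta ⧸ N)) := by
      rw [Subgroup.zpowers_le]; exact hQ
    have h2 := (isPGroup_zpowers_gz N hN).inf_normalizer_sylow Q
    have h3 : zb ∈ (Q : Subgroup (Delta ⧸ N)) := by
      have h4 : zb ∈ Subgroup.zpowers zb ⊓ (Q : Subgroup (Delta ⧸ N)) := by
        rw [← h2]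
        exact ⟨Subgroup.mem_zpowers _, hQ⟩
      exact h4.2
    apply Sylow.ext
    rw [← hsyl Q h3, ← hsyl P₀ hzP]
  have hfix' : ∀ (Q : Sylow 7 (Delta ⧸ N)) (i : ℕ), ¬ 7 ∣ i → zb ^ i • Q = Q → Q = P₀ := by
    intro Q i hi hQ
    apply hfix
    have hc : (i).Coprime (orderOf zb) := by
      rw [hzo]; exact ((Nat.Prime.coprime_iff_not_dvd fact7.out).2 hi).symm
    obtain ⟨m, hm⟩ := exists_pow_eq_self_of_coprime hc
    have hmem : zb ^ i ∈ MulAction.stabilizer (Delta ⧸ N) Q := hQ
    have := Subgroup.pow_mem _ hmem m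
    rw [hm] at this
    exact this
  have hzP₀ : zb • P₀ = P₀ := by
    rw [Sylow.smul_eq_iff_mem_normalizer]
    exact Subgroup.le_normalizer hzP
  have hzP₀' : ∀ i : ℕ, zb ^ i • P₀ = P₀ := by
    intro i
    induction i with
    | zero => simp
    | succ n ih => rw [pow_succ, mul_smul, hzP₀, ih]
  set Q₀ := xb • P₀ with hQ₀
  have hQP : Q₀ ≠ P₀ := by
    intro he
    have hnorm : (P₀ : Subgroup (Delta ⧸ N)).Normal := by
      rw [← Subgroup.normalizer_eq_top_iff]
      have h1 : (Subgroup.normalizer (P₀ : Set (Delta ⧸ N))).comap π = ⊤ := by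
        rw [eq_top_iff, ← closure_gens, Subgroup.closure_le]
        have hxm : gx ∈ (Subgroup.normalizer (P₀ : Set (Delta ⧸ N))).comap π := by
          rw [Subgroup.mem_comap, ← Sylow.smul_eq_iff_mem_normalizer]; exact he
        have hzm : gx * gy ∈ (Subgroup.normalizer (P₀ : Set (Delta ⧸ N))).comap π := by
          rw [Subgroup.mem_comap, ← Sylow.smul_eq_iff_mem_normalizer]; exact hzP₀
        intro t ht
        rcases ht with rfl | ht
        · exact hxm
        · rw [Set.mem_singleton_iff.mp ht]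
          have := Subgroup.mul_mem _ (Subgroup.inv_mem _ hxm) hzm
          simpa using this
      have h2 : Function.Surjective π := QuotientGroup.mk'_surjective N
      rw [eq_top_iff]
      intro t _
      obtain ⟨s, rfl⟩ := h2 t
      have : s ∈ (Subgroup.normalizer (P₀ : Set (Delta ⧸ N))).comap π := by rw [h1]; trivial
      exact this
    apply card_sylow_ne_one N hN
    have := Sylow.unique_of_normal P₀ hnorm
    exact Nat.card_unique
  let ι : Fin 8 → Sylow 7 (Delta ⧸ N) := fun i => if i = 7 then P₀ else zb ^ (i : ℕ) • Q₀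
  have hι7 : ι 7 = P₀ := by simp [ι]
  have hιi : ∀ i : Fin 8, i ≠ 7 → ι i = zb ^ (i : ℕ) • Q₀ := by
    intro i hi; simp [ι, hi]
  have hnot : ∀ i : ℕ, zb ^ i • Q₀ ≠ P₀ := by
    intro i hi
    apply hQP
    have := hzP₀' i
    rw [← this] at hi
    exact MulAction.injective (zb ^ i) hi
  have hle : ∀ i j : ℕ, i < j → j < 7 → zb ^ i • Q₀ ≠ zb ^ j • Q₀ := by
    intro i j hij hj he
    obtain ⟨k, rfl⟩ := Nat.exists_eq_add_of_lt hij
    rw [show i + k + 1 = i + (k + 1) by ring, pow_add, mul_smul] at he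
    have he' := MulAction.injective (zb ^ i) he
    apply hQP
    apply hfix' Q₀ (k + 1) _ he'.symm
    intro hd
    have := Nat.le_of_dvd (by omega) hd
    omega
  have hinj : Function.Injective ι := by
    intro i j hij
    by_cases hi : i = 7
    · by_cases hj : j = 7
      · rw [hi, hj]
      · exfalso
        rw [hi, hι7, hιi j hj] at hij
        exact hnot _ hij.symm
    · by_cases hj : j = 7
      · exfalso
        rw [hj, hι7, hιi i hi] at hij
        exact hnot _ hij
      · rw [hιi i hi, hιi j hj] at hij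
        have hi7 : (i : ℕ) < 7 := by
          have := i.isLt
          have h' : (i : ℕ) ≠ 7 := fun h => hi (Fin.ext h)
          omega
        have hj7 : (j : ℕ) < 7 := by
          have := j.isLt
          have h' : (j : ℕ) ≠ 7 := fun h => hj (Fin.ext h)
          omega
        rcases lt_trichotomy (i : ℕ) (j : ℕ) with hlt | heq | hgt
        · exact absurd hij (hle _ _ hlt hj7)
        · exact Fin.ext heq
        · exact absurd hij.symm (hle _ _ hgt hi7)
  have hbij : Function.Bijective ι := by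
    apply hinj.bijective_of_nat_card_le
    rw [hn8]; simp
  let e : Fin 8 ≃ Sylow 7 (Delta ⧸ N) := Equiv.ofBijective ι hbij
  have he : ∀ i, e i = ι i := fun i => rfl
  let ρ : Delta →* Equiv.Perm (Fin 8) :=
    ((e.symm.permCongrHom).toMonoidHom.comp (MulAction.toPermHom (Delta ⧸ N) (Sylow 7 (Delta ⧸ N)))).comp π
  have hρ : ∀ g i, ρ g i = e.symm (π g • e i) := fun g i => rfl
  have hρz : ∀ i, ρ (gx * gy) i = cf i := by
    intro i
    rw [hρ, Equiv.symm_apply_eq, he, he]
    fin_cases i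
    · show zb • ι 0 = ι 1
      rw [hιi 0 (by decide), hιi 1 (by decide), smul_smul]
      congr 1
    · show zb • ι 1 = ι 2
      rw [hιi 1 (by decide), hιi 2 (by decide), smul_smul, ← pow_succ']
      rfl
    · show zb • ι 2 = ι 3
      rw [hιi 2 (by decide), hιi 3 (by decide), smul_smul, ← pow_succ']
      rfl
    · show zb • ι 3 = ι 4
      rw [hιi 3 (by decide), hιi 4 (by decide), smul_smul, ← pow_succ']
      rfl
    · show zb • ι 4 = ι 5
      rw [hιi 4 (by decide), hιi 5 (by decide), smul_smul, ← pow_succ']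
      rfl
    · show zb • ι 5 = ι 6
      rw [hιi 5 (by decide), hιi 6 (by decide), smul_smul, ← pow_succ']
      rfl
    · show zb • ι 6 = ι 0
      rw [hιi 6 (by decide), hιi 0 (by decide), smul_smul, ← pow_succ']
      show zb ^ 7 • Q₀ = zb ^ 0 • Q₀
      rw [hz7, pow_zero]
    · show zb • ι 7 = ι 7
      rw [hι7, hzP₀]
  have hρx7 : ρ gx 7 = 0 := by
    rw [hρ, Equiv.symm_apply_eq, he, he, hι7, hιi 0 (by decide)]
    simp [hQ₀]
    rfl
  have hρx2 : ∀ i, ρ gx (ρ gx i) = i := by
    intro i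
    rw [← Equiv.Perm.mul_apply, ← map_mul, ← sq, gx_sq, map_one]
    rfl
  have hy : gy = gx * (gx * gy) := by
    rw [← mul_assoc, ← sq, gx_sq, one_mul]
  have hρy : ∀ i, ρ gy i = ρ gx (cf i) := by
    intro i
    have h1 : ρ gy = ρ gx * ρ (gx * gy) := by
      rw [← map_mul, ← hy]
    rw [h1, Equiv.Perm.mul_apply, hρz]
  have hρy3 : ∀ i, ρ gx (cf (ρ gx (cf (ρ gx (cf i))))) = i := by
    intro i
    rw [← hρy, ← hρy, ← hρy, ← Equiv.Perm.mul_apply, ← Equiv.Perm.mul_apply, ← map_mul,
      ← map_mul, ← sq, ← pow_succ, gy_cube, map_one]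
    rfl
  have hfun := ff_unique (fun i => ρ gx i) hρx2 hρx7 hρy3
  refine ⟨ρ, fun i => congrFun hfun i, hρz, ?_⟩
  have hle : N ≤ ρ.ker := by
    intro n hn
    rw [MonoidHom.mem_ker]
    ext i
    rw [hρ]
    have : π n = 1 := (QuotientGroup.eq_one_iff _).2 hn
    rw [this, one_smul]
    simp
  have hker : ρ.ker ≠ ⊤ := by
    intro ht
    have : gx ∈ ρ.ker := by rw [ht]; trivial
    rw [MonoidHom.mem_ker] at this
    rw [this] at hρx7
    revert hρx7
    decide
  have hidx : ρ.ker.index = 168 := by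
    apply index_eq_168 _ hker
    rw [← h]
    exact Subgroup.index_dvd_of_le hle
  exact (eq_of_le_of_index_eq hle (by rw [h]; norm_num) (by rw [h, hidx])).symm

end

theorem unique_168 (N N' : Subgroup Delta) [N.Normal] [N'.Normal] (h : N.index = 168)
    (h' : N'.index = 168) : N = N' := by
  obtain ⟨ρ, hx, hz, hk⟩ := exists_perm_rep N h
  obtain ⟨ρ', hx', hz', hk'⟩ := exists_perm_rep N' h'
  have hy : gy = gx⁻¹ * (gx * gy) := by group
  have e1 : ρ gx = ρ' gx := by
    ext i; rw [hx, hx']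
  have e2 : ρ (gx * gy) = ρ' (gx * gy) := by
    ext i; rw [hz, hz']
  have e3 : ρ gy = ρ' gy := by
    rw [hy, map_mul, map_mul ρ', map_inv, map_inv, e1, e2]
  rw [← hk, ← hk', hom_ext e1 e3]

end Pool.Agent.Helper23.Hurwitz
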