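import Pool.Agent.Helper23.Hurwitz.Linear
import Pool.Agent.Helper23.Hurwitz.Unique168

/-!
# Homomorphisms from the normal subgroup of index 168 to a field
-/

namespace Pool.Agent.Helper23.Hurwitz

open Module

section crossed

variable {R : Type*} [Group R] {k : Type*} [Field k]

/-- Right translation as an additive equivalence. -/
def trEquiv (g : R) : (R → k) ≃+ (R → k) where
  toFun f := tr g f
  invFun f := tr g⁻¹ f
  left_inv f := by funext r; simp
  right_inv f := by funext r; simp
  map_add' _ _ := rfl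

/-- The action of `R` on the functions on `R`. -/
def trAut : R →* MulAut (Multiplicative (R → k)) where
  toFun g := AddEquiv.toMultiplicative (trEquiv g)
  map_one' := by
    ext f r
    show (Multiplicative.toAdd f) (r * 1) = (Multiplicative.toAdd f) r
    rw [mul_one]
  map_mul' g h := by
    ext f r
    show (Multiplicative.toAdd f) (r * (g * h)) = (Multiplicative.toAdd f) (r * g * h)
    rw [mul_assoc]

/-- The semidirect product of the functions on `R` with `R`. -/
abbrev Semi (R : Type*) [Group R] (k : Type*) [Field k] : Type _ :=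
  SemidirectProduct (Multiplicative (R → k)) R (trAut (R := R) (k := k))

/-- The function part. -/
def fpart (s : Semi R k) : R → k := Multiplicative.toAdd s.left

theorem fpart_mul (s t : Semi R k) : fpart (s * t) = fpart s + tr s.right (fpart t) := rfl

theorem fpart_one : fpart (1 : Semi R k) = 0 := rfl

/-- Constructor. -/
def mkS (f : R → k) (g : R) : Semi R k := ⟨Multiplicative.ofAdd f, g⟩

theorem mkS_pow (f : R → k) (g : R) (m : ℕ) : mkS f g ^ m = mkS (nrm m g f) (g ^ m) := by
  induction m with
  | zero =>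
    rw [pow_zero, pow_zero]
    have : nrm 0 g f = 0 := by funext r; simp [nrm_apply]
    rw [this]; rfl
  | succ m ih =>
    rw [pow_succ, ih]
    apply SemidirectProduct.ext
    · apply Multiplicative.toAdd.injective
      show nrm m g f + tr (g ^ m) f = nrm (m + 1) g f
      funext r
      rw [nrm_apply, Finset.sum_range_succ]
      rfl
    · show g ^ m * g = g ^ (m + 1)
      rw [pow_succ]

theorem mkS_mul (f f' : R → k) (g g' : R) : mkS f g * mkS f' g' = mkS (f + tr g f') (g * g') := rfl

theorem mkS_zero_one : mkS (0 : R → k) (1 : R) = 1 := rfl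

end crossed

section

variable (N : Subgroup Delta) (k : Type) [Field k]

/-- Functions `φ` on `Δ` with `φ(ng) = (φ(n) - φ(1)) + φ(g)` for `n ∈ N`. -/
def quasi : Submodule k (Delta → k) where
  carrier := {φ | ∀ n ∈ N, ∀ g, φ (n * g) = φ n - φ 1 + φ g}
  zero_mem' := by simp
  add_mem' := by
    intro φ ψ h h' n hn g
    simp only [Pi.add_apply, h n hn g, h' n hn g]
    ring
  smul_mem' := by
    intro c φ h n hn g
    simp only [Pi.smul_apply, h n hn g, smul_eq_mul]
    ring

/-- Homomorphisms from `N` to `k`. -/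
def homs : Submodule k (N → k) where
  carrier := {a | ∀ m n, a (m * n) = a m + a n}
  zero_mem' := by simp
  add_mem' := by
    intro φ ψ h h' m n
    simp only [Pi.add_apply, h m n, h' m n]
    ring
  smul_mem' := by
    intro c φ h m n
    simp only [Pi.smul_apply, h m n, smul_eq_mul]
    ring

variable [hNn : N.Normal]

theorem out_eq (h : Delta) : ∃ n ∈ N, (QuotientGroup.mk' N h).out = n * h := by
  refine ⟨(QuotientGroup.mk' N h).out * h⁻¹, ?_, by group⟩
  have h1 : QuotientGroup.mk' N ((QuotientGroup.mk' N h).out) = QuotientGroup.mk' N h :=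
    QuotientGroup.out_eq' _
  have h2 : QuotientGroup.mk' N ((QuotientGroup.mk' N h).out * h⁻¹) = 1 := by
    rw [map_mul, h1, ← map_mul]; simp
  exact (QuotientGroup.eq_one_iff _).1 h2

/-- The difference `φ(h) - φ(hg)` as a function on the quotient. -/
noncomputable def diff (g : Delta) : quasi N k →ₗ[k] ((Delta ⧸ N) → k) where
  toFun φ := fun r => φ.1 r.out - φ.1 (r.out * g)
  map_add' φ ψ := by
    funext r
    show (φ.1 + ψ.1) r.out - (φ.1 + ψ.1) (r.out * g) = _
    simp only [Pi.add_apply]
    ring
  map_smul' c φ := by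
    funext r
    show (c • φ.1) r.out - (c • φ.1) (r.out * g) = _
    simp only [Pi.smul_apply, smul_eq_mul, RingHom.id_apply]
    ring

theorem diff_apply (g : Delta) (φ : quasi N k) (h : Delta) :
    diff N k g φ (QuotientGroup.mk' N h) = φ.1 h - φ.1 (h * g) := by
  show φ.1 (QuotientGroup.mk' N h).out - φ.1 ((QuotientGroup.mk' N h).out * g) = _
  obtain ⟨n, hn, he⟩ := out_eq N h
  rw [he, mul_assoc, φ.2 n hn, φ.2 n hn]
  ring

theorem diff_mul (g g' : Delta) (φ : quasi N k) :
    diff N k (g * g') φ = diff N k g φ + tr (QuotientGroup.mk' N g) (diff N k g' φ) := by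
  funext r
  obtain ⟨h, rfl⟩ := QuotientGroup.mk'_surjective N r
  rw [Pi.add_apply, tr_apply, ← map_mul, diff_apply, diff_apply, diff_apply, mul_assoc]
  ring

theorem nrm_diff (g : Delta) (m : ℕ) (hg : g ^ m = 1) (φ : quasi N k) :
    nrm m (QuotientGroup.mk' N g) (diff N k g φ) = 0 := by
  funext r
  obtain ⟨h, rfl⟩ := QuotientGroup.mk'_surjective N r
  rw [nrm_apply]
  have h1 : ∀ i ∈ Finset.range m, diff N k g φ (QuotientGroup.mk' N h * QuotientGroup.mk' N g ^ i) =
      φ.1 (h * g ^ i) - φ.1 (h * g ^ (i + 1)) := by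
    intro i _
    rw [← map_pow, ← map_mul, diff_apply, mul_assoc, ← pow_succ]
  rw [Finset.sum_congr rfl h1, Finset.sum_range_sub']
  simp [hg]

/-- The map from `quasi` to the crossed homomorphisms. -/
noncomputable def alpha : quasi N k →ₗ[k] cocyc (k := k) (QuotientGroup.mk' N gx) (QuotientGroup.mk' N gy) :=
  LinearMap.codRestrict _ ((diff N k gx).prod (diff N k gy)) (by
    intro φ
    refine ⟨nrm_diff N k gx 2 gx_sq φ, nrm_diff N k gy 3 gy_cube φ, ?_⟩
    have h := nrm_diff N k (gx * gy) 7 gz_pow φ
    rw [diff_mul, map_mul] at h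
    exact h)

theorem alpha_apply (φ : quasi N k) : (alpha N k φ).1 = (diff N k gx φ, diff N k gy φ) := rfl

theorem ker_alpha (φ : quasi N k) (h : alpha N k φ = 0) (g : Delta) : φ.1 g = φ.1 1 := by
  have h0 : (alpha N k φ).1 = 0 := by rw [h]; rfl
  rw [alpha_apply] at h0
  have hx : diff N k gx φ = 0 := congrArg Prod.fst h0
  have hy : diff N k gy φ = 0 := congrArg Prod.snd h0
  have hX : ∀ t, φ.1 (t * gx) = φ.1 t := by
    intro t
    have := diff_apply N k gx φ t
    rw [hx] at this
    exact (sub_eq_zero.1 this.symm).symm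
  have hY : ∀ t, φ.1 (t * gy) = φ.1 t := by
    intro t
    have := diff_apply N k gy φ t
    rw [hy] at this
    exact (sub_eq_zero.1 this.symm).symm
  have key : ∀ g : Delta, ∀ t, φ.1 (t * g) = φ.1 t := by
    intro g
    have hg : g ∈ Subgroup.closure {gx, gy} := by rw [closure_gens]; trivial
    induction hg using Subgroup.closure_induction with
    | mem s hs =>
      intro t
      rcases hs with rfl | hs
      · exact hX t
      · rw [Set.mem_singleton_iff.mp hs]; exact hY t
    | one => intro t; rw [mul_one]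
    | mul a b _ _ iha ihb => intro t; rw [← mul_assoc, ihb, iha]
    | inv a _ iha =>
      intro t
      have := iha (t * a⁻¹)
      rw [inv_mul_cancel_right] at this
      exact this.symm
  have := key g 1
  rwa [one_mul] at this

/-- The kernel of `alpha` consists of the constants. -/
noncomputable def kerAlphaEquiv : LinearMap.ker (alpha N k) ≃ₗ[k] k where
  toFun φ := φ.1.1 1
  map_add' _ _ := rfl
  map_smul' _ _ := rfl
  invFun c := ⟨⟨fun _ => c, by intro n _ g; simp⟩, by
    rw [LinearMap.mem_ker]
    apply Subtype.ext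
    rw [alpha_apply]
    refine Prod.ext ?_ ?_
    · funext r
      show c - c = 0
      rw [sub_self]
    · funext r
      show c - c = 0
      rw [sub_self]⟩
  left_inv φ := by
    apply Subtype.ext
    apply Subtype.ext
    funext g
    exact (ker_alpha N k φ.1 φ.2 g).symm
  right_inv c := rfl

theorem alpha_surjective : Function.Surjective (alpha N k) := by
  rintro ⟨⟨u, v⟩, hu, hv, huv⟩
  simp only at hu hv huv
  set xb := QuotientGroup.mk' N gx with hxb
  set yb := QuotientGroup.mk' N gy with hyb
  have r1 : mkS u xb ^ 2 = 1 := by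
    rw [mkS_pow, hu, hxb, ← map_pow, gx_sq, map_one, mkS_zero_one]
  have r2 : mkS v yb ^ 3 = 1 := by
    rw [mkS_pow, hv, hyb, ← map_pow, gy_cube, map_one, mkS_zero_one]
  have r3 : (mkS u xb * mkS v yb) ^ 7 = 1 := by
    rw [mkS_mul, mkS_pow, huv, hxb, hyb, ← map_mul, ← map_pow, gz_pow, map_one, mkS_zero_one]
  obtain ⟨f, hfx, hfy⟩ := exists_lift (mkS u xb) (mkS v yb) r1 r2 r3
  have hright : ∀ g, (f g).right = QuotientGroup.mk' N g := by
    have : (SemidirectProduct.rightHom).comp f = QuotientGroup.mk' N := by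
      apply hom_ext
      · show (f gx).right = _
        rw [hfx]; rfl
      · show (f gy).right = _
        rw [hfy]; rfl
    intro g
    exact DFunLike.congr_fun this g
  have hmul : ∀ g g', fpart (f (g * g')) = fpart (f g) + tr (QuotientGroup.mk' N g) (fpart (f g')) := by
    intro g g'
    rw [map_mul, fpart_mul, hright]
  have hone : fpart (f 1) = 0 := by rw [map_one]; rfl
  let φ : Delta → k := fun h => - fpart (f h) 1
  have hφ : φ ∈ quasi N k := by
    intro n hn g
    show - fpart (f (n * g)) 1 = - fpart (f n) 1 - - fpart (f 1) 1 + - fpart (f g) 1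
    rw [hmul, hone]
    have : QuotientGroup.mk' N n = 1 := (QuotientGroup.eq_one_iff _).2 hn
    rw [this]
    simp only [Pi.add_apply, tr_apply, Pi.zero_apply, mul_one]
    ring
  have hd : ∀ g, diff N k g ⟨φ, hφ⟩ = fpart (f g) := by
    intro g
    funext r
    obtain ⟨h, rfl⟩ := QuotientGroup.mk'_surjective N r
    rw [diff_apply]
    show - fpart (f h) 1 - - fpart (f (h * g)) 1 = _
    rw [hmul]
    simp only [Pi.add_apply, tr_apply, one_mul]
    ring
  refine ⟨⟨φ, hφ⟩, ?_⟩
  apply Subtype.ext
  rw [alpha_apply, hd, hd, hfx, hfy]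
  rfl

/-- Restriction to `N`. -/
def res : quasi N k →ₗ[k] homs N k where
  toFun φ := ⟨fun n => φ.1 n.1 - φ.1 1, by
    intro m n
    show φ.1 (m.1 * n.1) - φ.1 1 = φ.1 m.1 - φ.1 1 + (φ.1 n.1 - φ.1 1)
    rw [φ.2 m.1 m.2]
    ring⟩
  map_add' φ ψ := by
    apply Subtype.ext
    funext n
    show (φ.1 n.1 + ψ.1 n.1) - (φ.1 1 + ψ.1 1) = (φ.1 n.1 - φ.1 1) + (ψ.1 n.1 - ψ.1 1)
    ring
  map_smul' c φ := by
    apply Subtype.ext
    funext n
    show c * φ.1 n.1 - c * φ.1 1 = c * (φ.1 n.1 - φ.1 1)
    ring

theorem res_apply (φ : quasi N k) (n : N) : (res N k φ).1 n = φ.1 n.1 - φ.1 1 := rfl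

theorem res_surjective : Function.Surjective (res N k) := by
  rintro ⟨a, ha⟩
  have hmem : ∀ h : Delta, h * (QuotientGroup.mk' N h).out⁻¹ ∈ N := by
    intro h
    obtain ⟨n, hn, he⟩ := out_eq N h
    rw [he, mul_inv_rev, ← mul_assoc, mul_inv_cancel, one_mul]
    exact Subgroup.inv_mem _ hn
  let φ : Delta → k := fun h => a ⟨_, hmem h⟩
  have hmul : ∀ (n : Delta) (hn : n ∈ N) (g : Delta), φ (n * g) = a ⟨n, hn⟩ + φ g := by
    intro n hn g
    show a _ = a _ + a _
    rw [← ha]
    congr 1
    apply Subtype.ext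
    show n * g * (QuotientGroup.mk' N (n * g)).out⁻¹ = n * (g * (QuotientGroup.mk' N g).out⁻¹)
    have : QuotientGroup.mk' N (n * g) = QuotientGroup.mk' N g := by
      rw [map_mul]
      have : QuotientGroup.mk' N n = 1 := (QuotientGroup.eq_one_iff _).2 hn
      rw [this, one_mul]
    rw [this, mul_assoc]
  have hφn : ∀ (n : Delta) (hn : n ∈ N), φ n = a ⟨n, hn⟩ + φ 1 := by
    intro n hn
    have := hmul n hn 1
    rwa [mul_one] at this
  have hφ : φ ∈ quasi N k := by
    intro n hn g
    rw [hmul n hn, hφn n hn]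
    ring
  refine ⟨⟨φ, hφ⟩, ?_⟩
  apply Subtype.ext
  funext n
  rw [res_apply]
  show φ n.1 - φ 1 = a n
  rw [hφn n.1 n.2]
  ring

/-- The kernel of `res` consists of the functions on the quotient. -/
noncomputable def kerResEquiv : LinearMap.ker (res N k) ≃ₗ[k] ((Delta ⧸ N) → k) where
  toFun φ := fun r => φ.1.1 r.out
  map_add' _ _ := rfl
  map_smul' _ _ := rfl
  invFun f := ⟨⟨fun g => f (QuotientGroup.mk' N g), by
    intro n hn g
    show f (QuotientGroup.mk' N (n * g)) = f (QuotientGroup.mk' N n) - f (QuotientGroup.mk' N 1) +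
      f (QuotientGroup.mk' N g)
    have : QuotientGroup.mk' N n = 1 := (QuotientGroup.eq_one_iff _).2 hn
    rw [map_mul, this, one_mul, map_one, sub_self, zero_add]⟩, by
    rw [LinearMap.mem_ker]
    apply Subtype.ext
    funext n
    rw [res_apply]
    show f (QuotientGroup.mk' N n.1) - f (QuotientGroup.mk' N 1) = 0
    have : QuotientGroup.mk' N n.1 = 1 := (QuotientGroup.eq_one_iff _).2 n.2
    rw [this, map_one, sub_self]⟩
  left_inv φ := by
    apply Subtype.ext
    apply Subtype.ext
    funext g
    show φ.1.1 (QuotientGroup.mk' N g).out = φ.1.1 g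
    obtain ⟨n, hn, he⟩ := out_eq N g
    have h1 := φ.2
    rw [LinearMap.mem_ker] at h1
    have h2 := res_apply N k φ.1 ⟨n, hn⟩
    rw [h1] at h2
    have h3 : φ.1.1 n - φ.1.1 1 = 0 := h2.symm
    rw [he, φ.1.2 n hn, h3, zero_add]
  right_inv f := by
    funext r
    show f (QuotientGroup.mk' N r.out) = f r
    congr 1
    exact QuotientGroup.out_eq' r

theorem finrank_homs (hN : N.index = 168) (h168 : (168 : k) ≠ 0) : finrank k (homs N k) = 6 := by
  have hfin : Finite (Delta ⧸ N) := finite_quotient_of_index_dvd N (by rw [hN])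
  have hft : Fintype (Delta ⧸ N) := Fintype.ofFinite _
  have htop := ne_top_of_index N hN
  have hcard : Nat.card (Delta ⧸ N) = 168 := hN
  have hgen : Subgroup.closure {QuotientGroup.mk' N gx, QuotientGroup.mk' N gy} = ⊤ := by
    have h1 : Subgroup.map (QuotientGroup.mk' N) (Subgroup.closure {gx, gy}) = ⊤ := by
      rw [closure_gens, ← MonoidHom.range_eq_map, MonoidHom.range_eq_top]
      exact QuotientGroup.mk'_surjective N
    rw [MonoidHom.map_closure, Set.image_pair] at h1
    exact h1
  have hc := finrank_cocyc (k := k) (QuotientGroup.mk' N gx) (QuotientGroup.mk' N gy)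
    (orderOf_mk_gx N htop) (orderOf_mk_gy N htop)
    (by rw [← map_mul]; exact orderOf_mk_gz N htop) hgen hcard h168
  have hfc : Module.Finite k (cocyc (k := k) (QuotientGroup.mk' N gx) (QuotientGroup.mk' N gy)) :=
    inferInstance
  -- the rank of `quasi`
  have hrk : Module.rank k (quasi N k) = ((174 : ℕ) : Cardinal) := by
    have h1 := LinearMap.rank_range_add_rank_ker (alpha N k)
    rw [LinearMap.range_eq_top.2 (alpha_surjective N k), rank_top, (kerAlphaEquiv N k).rank_eq,
      rank_self, ← Module.finrank_eq_rank, hc] at h1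
    rw [← h1]
    norm_num
  have hfinW : Module.Finite k (quasi N k) := Module.finite_of_rank_eq_nat hrk
  have hW : finrank k (quasi N k) = 174 := Module.finrank_eq_of_rank_eq hrk
  have h2 := LinearMap.finrank_range_add_finrank_ker (res N k)
  rw [LinearMap.range_eq_top.2 (res_surjective N k), finrank_top, (kerResEquiv N k).finrank_eq,
    Module.finrank_fintype_fun_eq_card, ← Nat.card_eq_fintype_card, hcard, hW] at h2
  omega

end

end Pool.Agent.Helper23.Hurwitz
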